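import Pool.Agent.Lib.MP_e6f638_al.T.Stmts16

/-!
# Module T2: the points and lines of a group with a retraction
-/

set_option autoImplicit false

namespace Pool.Agent.Lib.MP_e6f638_al

namespace T2_33

variable {G : Type} [Group G] {C : Subgroup G} {Y : Type} {y : Y → G}

/-- The shift of a line. -/
theorem shift (g g' : G) (j : Y) (a b : ℤ) (h : G) (hh : h ∈ C) (hc : Commute h (y j))
    (e : g' * y j ^ a = g * y j ^ b * h) :
    ∃ c, ∀ i, gpt C y (g', j) i = gpt C y (g, j) (i + c) := by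
  refine ⟨b - a, fun i => ?_⟩
  have e1 : g' = g * y j ^ (b - a) * h := by
    have h2 : h * y j ^ (-a) = y j ^ (-a) * h := (hc.zpow_right (-a)).eq
    calc g' = g' * y j ^ a * y j ^ (-a) := by
          rw [mul_assoc, ← zpow_add]; simp
      _ = g * y j ^ b * (h * y j ^ (-a)) := by rw [e, mul_assoc]
      _ = g * y j ^ (b - a) * h := by
          rw [h2, ← mul_assoc, mul_assoc g, ← zpow_add, sub_eq_add_neg]
  have h3 : h * y j ^ i = y j ^ i * h := (hc.zpow_right i).eq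
  have e2 : g' * y j ^ i = g * y j ^ (i + (b - a)) * h := by
    rw [e1, mul_assoc, h3, ← mul_assoc, mul_assoc g, ← zpow_add, add_comm]
  show (QuotientGroup.mk (g' * y j ^ i) : G ⧸ C) = QuotientGroup.mk (g * y j ^ (i + (b - a)))
  rw [e2]
  refine (QuotientGroup.eq.2 ?_).symm
  rw [inv_mul_cancel_left]
  exact hh

/-- Equality of points. -/
theorem gpt_eq {g g' : G} {j j' : Y} {a b : ℤ} (h : gpt C y (g, j) a = gpt C y (g', j') b) :
    ∃ k ∈ C, g' * y j' ^ b = g * y j ^ a * k := by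
  have h1 : (QuotientGroup.mk (g * y j ^ a) : G ⧸ C) = QuotientGroup.mk (g' * y j' ^ b) := h
  rw [QuotientGroup.eq] at h1
  exact ⟨_, h1, by rw [mul_inv_cancel_left]⟩

end T2_33

open T2_33

/-- Module T2. -/
theorem stT2 : StT2 := by
  intro G _ C Y y r Q _ p hr _ hry hp hp1 hp3 hCC
  -- two powers
  have hp2 : ∀ (j j' : Y) (k k' : ℤ), k ≠ 0 → p (y j) ^ k = p (y j') ^ k' → j = j' := by
    intro j j' k k' hk e
    have hk' : k' ≠ 0 := by
      rintro rfl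
      rw [zpow_zero] at e
      exact hk (hp1 j k e)
    by_cases h1 : k = -1
    · have e1 : p (y j) ^ (k - 1) * p (y j) ^ (1 : ℤ) * p (y j') ^ (-k') = 1 := by
        rw [← zpow_add, sub_add_cancel, e, ← zpow_add, add_neg_cancel, zpow_zero]
      exact (hp3 j j j' (k - 1) 1 (-k') (by omega) (by omega) (by omega) e1).2
    · have e1 : p (y j) ^ (k + 1) * p (y j) ^ (-1 : ℤ) * p (y j') ^ (-k') = 1 := by
        rw [← zpow_add, add_neg_cancel_right, e, ← zpow_add, add_neg_cancel, zpow_zero]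
      exact (hp3 j j j' (k + 1) (-1) (-k') (by omega) (by omega) (by omega) e1).2
  have hinj : ∀ (j : Y) (k k' : ℤ), p (y j) ^ k = p (y j) ^ k' → k = k' := by
    intro j k k' e
    have := hp1 j (k - k') (by rw [zpow_sub, e, mul_inv_cancel])
    omega
  refine ⟨?_, ?_, ?_⟩
  · rintro ⟨g, j⟩ m n h
    obtain ⟨k, hk, e⟩ := gpt_eq h
    have e1 : y j ^ n = y j ^ m * k := by
      rw [mul_assoc] at e
      exact mul_left_cancel e
    have e2 := congrArg p e1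
    rw [map_mul, map_zpow, map_zpow, hp k hk, mul_one] at e2
    exact (hinj j _ _ e2).symm
  · rintro ⟨g, j⟩ ⟨g', j'⟩ m n m' n' hmn h1 h2
    obtain ⟨h, hh, e1⟩ := gpt_eq h1
    obtain ⟨k, hk, e2⟩ := gpt_eq h2
    have e3 : y j' ^ (n' - m') = h⁻¹ * y j ^ (n - m) * k := by
      calc y j' ^ (n' - m') = (g' * y j' ^ m')⁻¹ * (g' * y j' ^ n') := by
            rw [zpow_sub, (Commute.zpow_zpow_self _ _ _).inv_right.eq]; group
        _ = h⁻¹ * y j ^ (n - m) * k := by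
            rw [e1, e2, zpow_sub, (Commute.zpow_zpow_self _ _ _).inv_right.eq]; group
    have hne : n - m ≠ 0 := fun e => hmn (by omega)
    have e4 := congrArg p e3
    rw [map_mul, map_mul, map_inv, hp h hh, hp k hk, map_zpow, map_zpow, inv_one, one_mul,
      mul_one] at e4
    have hjj : j = j' := hp2 j j' _ _ hne e4.symm
    subst hjj
    have e5 : n' - m' = n - m := hinj j _ _ e4
    have e6 := congrArg r e3
    rw [map_mul, map_mul, map_inv, hr h hh, hr k hk, map_zpow, map_zpow, hry, one_zpow, one_zpow,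
      mul_one] at e6
    have e7 : k = h := by rw [eq_comm, inv_mul_eq_one] at e6; exact e6.symm
    have e8 : y j ^ (n - m) = h⁻¹ * y j ^ (n - m) * h := by
      rw [e5, e7] at e3
      exact e3
    have h3 := (hCC j).two h⁻¹ (inv_mem hh) (n - m) hne (by
      rw [inv_inv]
      exact e8.symm)
    exact shift g g' j m' m h hh (Commute.inv_left_iff.1 h3) e1
  · rintro ⟨g₁, j₁⟩ ⟨g₂, j₂⟩ ⟨g₃, j₃⟩ a₁ b₁ a₂ b₂ a₃ b₃ n1 n2 n3 p1 p2 p3
    obtain ⟨h₁, hh₁, e₁⟩ := gpt_eq p1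
    obtain ⟨h₂, hh₂, e₂⟩ := gpt_eq p2
    obtain ⟨h₃, hh₃, e₃⟩ := gpt_eq p3
    have key : y j₁ ^ (b₁ - a₁) * h₁ * y j₂ ^ (b₂ - a₂) * h₂ * y j₃ ^ (b₃ - a₃) * h₃ = 1 := by
      have q1 : g₁ * y j₁ ^ b₁ = g₁ * y j₁ ^ a₁ * y j₁ ^ (b₁ - a₁) := by
        rw [mul_assoc, ← zpow_add]; congr 2; ring
      have q2 : g₂ * y j₂ ^ b₂ = g₂ * y j₂ ^ a₂ * y j₂ ^ (b₂ - a₂) := by
        rw [mul_assoc, ← zpow_add]; congr 2; ring
      have q3 : g₃ * y j₃ ^ b₃ = g₃ * y j₃ ^ a₃ * y j₃ ^ (b₃ - a₃) := by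
        rw [mul_assoc, ← zpow_add]; congr 2; ring
      rw [q3, e₂, q2, e₁, q1] at e₃
      have q4 : g₁ * y j₁ ^ a₁ * (y j₁ ^ (b₁ - a₁) * h₁ * y j₂ ^ (b₂ - a₂) * h₂ *
          y j₃ ^ (b₃ - a₃) * h₃) = g₁ * y j₁ ^ a₁ := by
        conv_rhs => rw [e₃]
        simp only [mul_assoc]
      exact mul_eq_left.1 q4
    have f1 : b₁ - a₁ ≠ 0 := fun e => n1 (by omega)
    have f2 : b₂ - a₂ ≠ 0 := fun e => n2 (by omega)
    have f3 : b₃ - a₃ ≠ 0 := fun e => n3 (by omega)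
    have W := congrArg p key
    rw [map_mul, map_mul, map_mul, map_mul, map_mul, hp h₁ hh₁, hp h₂ hh₂, hp h₃ hh₃, mul_one,
      mul_one, mul_one, map_one, map_zpow, map_zpow, map_zpow] at W
    obtain ⟨hj12, hj23⟩ := hp3 j₁ j₂ j₃ _ _ _ f1 f2 f3 W
    subst hj12
    subst hj23
    have q := congrArg r key
    rw [map_mul, map_mul, map_mul, map_mul, map_mul, map_zpow, map_zpow, map_zpow, hry, one_zpow,
      one_zpow, one_zpow, hr _ hh₁, hr _ hh₂, hr _ hh₃, one_mul, mul_one, mul_one, map_one] at q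
    have key2 : y j₁ ^ (b₁ - a₁) * (h₁ * y j₁ ^ (b₂ - a₂) * h₁⁻¹) *
        (h₁ * h₂ * y j₁ ^ (b₃ - a₃) * (h₁ * h₂)⁻¹) = 1 := by
      have r2 : (h₁ * h₂)⁻¹ = h₃ := by
        rw [inv_eq_iff_mul_eq_one]; exact q
      rw [r2, ← key]
      group
    rcases (hCC j₁).three h₁ hh₁ (h₁ * h₂) (mul_mem hh₁ hh₂) _ _ _ f1 f2 f3 key2 with
      c | c | c
    · left
      exact shift g₁ g₂ j₁ a₂ b₁ h₁ hh₁ c e₁
    · right; right
      have r3 : h₃ = (h₁ * h₂)⁻¹ := (eq_inv_of_mul_eq_one_right q)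
      have hc3 : Commute h₃ (y j₁) := by
        rw [r3]; exact c.inv_left
      exact shift g₃ g₁ j₁ a₁ b₃ h₃ hh₃ hc3 e₃
    · right; left
      rw [inv_mul_cancel_left] at c
      exact shift g₂ g₃ j₁ a₃ b₂ h₂ hh₂ c e₂

end Pool.Agent.Lib.MP_e6f638_al
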