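import Pool.Agent.Lib.MP_e6f638_al.T.Stmts16
import Pool.Agent.Lib.MP_e6f638_al.V.V6_77

/-!
# Module T2': the conclusions for the extension by one generator
-/

set_option autoImplicit false

namespace Pool.Agent.Lib.MP_e6f638_al

open Multiplicative

/-- Module T2'. -/
theorem stT2' (h3 : StV3') (h1 : StT1) : StT2' := by
  intro G _ C Y y A _ i u hE hG
  have hA : Abs (gpt C y) := h3 _ _ _ hG
  obtain ⟨ρ, hρi, hρu, e, he⟩ := h1 G C Y y A i u hE
  -- conjugates in the kernel
  have hk : ∀ a', i a' * u * (i a')⁻¹ ∈ ρ.ker := by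
    intro a'
    rw [MonoidHom.mem_ker, map_mul, map_mul, hρu, mul_one, ← map_mul, mul_inv_cancel, map_one]
  let c : G → ρ.ker := fun a' => ⟨i a' * u * (i a')⁻¹, hk a'⟩
  have hc : ∀ a', e (c a') = tt (gpt C y) (QuotientGroup.mk a') := fun a' => he a' (hk a')
  have hcz : ∀ (a' : G) (m : ℤ), ((c a' ^ m : ρ.ker) : A) = i a' * u ^ m * (i a')⁻¹ := by
    intro a' m
    rw [Subgroup.coe_zpow]
    change (i a' * u * (i a')⁻¹) ^ m = _
    rw [conj_zpow]
  have h1z : ∀ m : ℤ, ((c 1 ^ m : ρ.ker) : A) = u ^ m := by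
    intro m
    rw [hcz, map_one, one_mul, inv_one, mul_one]
  have hmk : ∀ a' b' : G, (QuotientGroup.mk a' : G ⧸ C) = QuotientGroup.mk b' →
      Commute (i (a'⁻¹ * b')) u := fun a' b' h => hE.comm _ (QuotientGroup.eq.1 h)
  refine ⟨⟨?_, ?_⟩, ?_⟩
  · rintro _ ⟨a', rfl⟩ m hm hc'
    have h1 : c a' ^ m = c 1 ^ m := by
      apply Subtype.ext
      rw [hcz, h1z]
      exact hc'
    have h2 := congrArg e h1
    rw [map_zpow, map_zpow, hc, hc] at h2
    have h3 := hmk _ _ (V6.pow_inj hA hm h2).symm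
    rw [inv_one, one_mul] at h3
    exact h3
  · rintro _ ⟨a', rfl⟩ _ ⟨b', rfl⟩ k₁ k₂ k₃ hk₁ hk₂ hk₃ hprod
    have h1 : c 1 ^ k₁ * c a' ^ k₂ * c b' ^ k₃ = 1 := by
      apply Subtype.ext
      rw [Subgroup.coe_mul, Subgroup.coe_mul, hcz a', hcz b', h1z]
      exact hprod
    have h2 := congrArg e h1
    rw [map_mul, map_mul, map_zpow, map_zpow, map_zpow, hc, hc, hc, map_one] at h2
    rcases V6.three hA hk₁ h2 with h3 | h3 | h3
    · have h4 := hmk _ _ h3
      rw [inv_one, one_mul] at h4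
      exact Or.inl h4
    · have h4 := hmk _ _ h3
      rw [map_mul, map_inv] at h4
      exact Or.inr (Or.inr h4)
    · have h4 := hmk _ _ h3
      rw [inv_one, one_mul] at h4
      exact Or.inr (Or.inl h4)
  · -- the normal closure of the square
    obtain ⟨W, F, hF⟩ := hA.free
    -- every element of the group is a product
    have hker : ∀ x : A, x * (i (ρ x))⁻¹ ∈ ρ.ker := by
      intro x
      rw [MonoidHom.mem_ker, map_mul, map_inv, hρi, mul_inv_cancel]
    have hRn : (RR (gpt C y)).Normal := Subgroup.normalClosure_normal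
    have hle : ∀ g ∈ Subgroup.normalClosure {u ^ 2}, ∃ hg : g ∈ ρ.ker,
        e ⟨g, hg⟩ ∈ RR (gpt C y) := by
      intro g hg
      have hmem : g ∈ ((RR (gpt C y)).comap e.toMonoidHom).map ρ.ker.subtype := by
        refine (Subgroup.closure_le _).2 ?_ hg
        intro y' hy
        rw [Group.mem_conjugatesOfSet_iff] at hy
        obtain ⟨a, ha, hx⟩ := hy
        rw [isConj_iff] at hx
        obtain ⟨x, hx⟩ := hx
        have ha2 : a = u ^ 2 := ha
        subst ha2
        have hxe : y' = x * u ^ 2 * x⁻¹ := hx.symm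
        let κ : ρ.ker := ⟨x * (i (ρ x))⁻¹, hker x⟩
        refine ⟨κ * c (ρ x) ^ 2 * κ⁻¹, ?_, ?_⟩
        · change e (κ * c (ρ x) ^ 2 * κ⁻¹) ∈ RR (gpt C y)
          rw [map_mul, map_mul, map_inv, map_pow, hc]
          exact hRn.conj_mem _ (Subgroup.subset_normalClosure ⟨_, rfl⟩) _
        · change (x * (i (ρ x))⁻¹) * ((i (ρ x) * u * (i (ρ x))⁻¹) ^ 2) *
            (x * (i (ρ x))⁻¹)⁻¹ = y'
          rw [hxe, conj_pow]
          have key : ∀ a b c : A, a * b⁻¹ * (b * c * b⁻¹) * (a * b⁻¹)⁻¹ = a * c * a⁻¹ := by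
            intro a b c
            group
          exact key _ _ _
      obtain ⟨k, hk1, hk2⟩ := hmem
      subst hk2
      exact ⟨k.2, hk1⟩
    let f : Subgroup.normalClosure {u ^ 2} →* RR (gpt C y) :=
      { toFun := fun g => ⟨e ⟨g, (hle g g.2).1⟩, (hle g g.2).2⟩
        map_one' := by
          apply Subtype.ext
          exact map_one e
        map_mul' := fun g g' => by
          apply Subtype.ext
          exact map_mul e ⟨(g : A), (hle g g.2).1⟩ ⟨(g' : A), (hle g' g'.2).1⟩ }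
    refine ⟨W, F.comp f, hF.comp ?_⟩
    intro g g' h
    have h1 := congrArg (fun z : RR (gpt C y) => (z : KG (gpt C y))) h
    have h2 := e.injective h1
    exact Subtype.ext (congrArg (fun z : ρ.ker => (z : A)) h2)

end Pool.Agent.Lib.MP_e6f638_al
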