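import Pool.Agent.Lib.MP_e6f638_al.T.Stmts16
import Pool.Agent.Lib.MP_e6f638_al.J.Main

/-!
# Artin groups whose odd components are modules: products of powers of three generators
-/

set_option autoImplicit false

namespace Pool.Agent.Lib.MP_e6f638_al

open Multiplicative Pool.Agent.Results.MP_e6f638_al.EvenArtin

namespace T3

/-- Powers of a generator. -/
theorem pow_eq_one {S : Type} (M : CoxeterMatrix S) (s : S) (n : ℤ) (h : ag M s ^ n = 1) :
    n = 0 := by
  obtain ⟨F, hF⟩ := stJH.1 S M (Multiplicative ℤ) (fun _ => ofAdd 1) fun _ _ => rfl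
  have h1 : F (ag M s ^ n) = F 1 := by rw [h]
  rw [map_zpow F, hF, map_one F] at h1
  have h2 := congrArg toAdd h1
  rw [toAdd_zpow, toAdd_ofAdd, toAdd_one] at h2
  simpa using h2

theorem rot {G : Type} [Group G] {a b c : G} (h : a * b * c = 1) : b * c * a = 1 := by
  have h1 : a⁻¹ * (a * b * c) * a = a⁻¹ * 1 * a := by rw [h]
  rwa [mul_one, inv_mul_cancel, mul_assoc a b c, inv_mul_cancel_left] at h1

/-- A nontrivial power of a generator is not in the standard subgroup of a set of other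
generators. -/
theorem pow_notin {S : Type} [Finite S] (M : CoxeterMatrix S) (X : Set S) (s₀ : S) (hs₀ : s₀ ∉ X)
    (k : ℤ) (hk : ag M s₀ ^ k ∈ Subgroup.closure (ag M '' X)) : k = 0 := by
  classical
  obtain ⟨n, ⟨e⟩⟩ := Finite.exists_equiv_fin S
  let M' : CoxeterMatrix (Fin n) := M.reindex e
  have hM' : ∀ s t : S, M' (e s) (e t) = M s t := by
    intro s t
    show M (e.symm (e s)) (e.symm (e t)) = M s t
    rw [e.symm_apply_apply, e.symm_apply_apply]
  let T : Finset (Fin n) := Finset.univ.filter (fun i => e.symm i ∈ X)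
  have hT : ∀ i, i ∈ T ↔ e.symm i ∈ X := by
    intro i
    simp [T]
  let v : Fin n → ArtinGroup M := fun i => ag M (e.symm i)
  have hv : ∀ x ∈ T, ∀ y ∈ T, alt (v x) (v y) (M' x y) = alt (v y) (v x) (M' x y) := by
    intro x _ y _
    exact stJH.2.1 S M (e.symm x) (e.symm y)
  obtain ⟨Φ, hΦ⟩ := stJH.1 S M (Equiv.Perm (VL70.Om M' T (ArtinGroup M)))
    (fun s => VL70.pm M' T v (e s)) (by
      intro s t
      have := VL70.braid (M := M') v hv (e s) (e t)
      rwa [hM' s t] at this)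
  have key : ∀ a ∈ Subgroup.closure (ag M '' X), ∀ b : ArtinGroup M,
      Φ a (⟨1, VL70.min_one⟩, b) = (⟨1, VL70.min_one⟩, a * b) := by
    intro a ha
    induction ha using Subgroup.closure_induction with
    | mem x hx =>
      obtain ⟨s, hs, rfl⟩ := hx
      intro b
      rw [hΦ]
      have h1 : e.symm (e (s : S)) ∈ X := by rw [e.symm_apply_apply]; exact hs
      have h2 : v (e s) = ag M s := by
        simp only [v, e.symm_apply_apply]
      rw [VL70.pm_loop v (e s) VL70.min_one (x := e s) ((hT _).mpr h1)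
        (by rw [mul_one, one_mul]), h2]
    | one =>
      intro b
      rw [map_one, one_mul]
      rfl
    | mul x y _ _ hx hy =>
      intro b
      rw [map_mul, Equiv.Perm.mul_apply, hy, hx, mul_assoc]
    | inv x _ hx =>
      intro b
      rw [map_inv, Equiv.Perm.inv_eq_iff_eq, hx, mul_inv_cancel_left]
  have hmin : VL70.MinP M' T (M'.simple (e s₀) * 1) := by
    by_contra hn
    obtain ⟨x, hx, hxw⟩ := VL70.deo VL70.min_one (e s₀) hn
    rw [mul_one, one_mul] at hxw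
    have h1 := JH14.simple_injective M' hxw
    rw [hT, ← h1, e.symm_apply_apply] at hx
    exact hs₀ hx
  have hsq : ∀ b : ArtinGroup M, (Φ (ag M s₀) ^ 2) (⟨1, VL70.min_one⟩, b) =
      (⟨1, VL70.min_one⟩, b) := by
    intro b
    have h2 : VL70.MinP M' T (M'.simple (e s₀) * (M'.simple (e s₀) * 1)) := by
      rw [VL70.sq_left]
      exact VL70.min_one
    rw [pow_two, Equiv.Perm.mul_apply, hΦ, VL70.pm_free v (e s₀) VL70.min_one hmin,
      VL70.pm_free v (e s₀) hmin h2]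
    simp only [VL70.sq_left]
  have h1 : ag M s₀ ^ (2 * k) ∈ Subgroup.closure (ag M '' X) := by
    rw [two_mul, zpow_add]
    exact Subgroup.mul_mem _ hk hk
  have h2 := key _ h1 1
  have h3 : ∀ b : ArtinGroup M, Φ (ag M s₀ ^ (2 * k)) (⟨1, VL70.min_one⟩, b) =
      (⟨1, VL70.min_one⟩, b) := by
    intro b
    rw [map_zpow, zpow_mul]
    have h4 : ∀ (p : Equiv.Perm (VL70.Om M' T (ArtinGroup M))) (z : VL70.Om M' T (ArtinGroup M)),
        p z = z → (p ^ k) z = z := by
      intro p z hz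
      exact Function.IsFixedPt.perm_zpow hz k
    exact h4 _ _ (by exact_mod_cast hsq b)
  rw [h3, mul_one] at h2
  have h4 := pow_eq_one M s₀ (2 * k) (congrArg Prod.snd h2).symm
  omega

end T3

theorem stT3 : StT3 := by
  intro S _ M
  refine ⟨fun s n h => T3.pow_eq_one M s n h, ?_⟩
  -- a generator different from the two others
  have key : ∀ (s₁ s₂ s₃ : S) (k₁ k₂ k₃ : ℤ), k₁ ≠ 0 →
      ag M s₁ ^ k₁ * ag M s₂ ^ k₂ * ag M s₃ ^ k₃ = 1 → s₁ = s₂ ∨ s₁ = s₃ := by
    intro s₁ s₂ s₃ k₁ k₂ k₃ hk h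
    by_contra hne
    push Not at hne
    refine hk (T3.pow_notin M {s₂, s₃} s₁ (by simp [hne.1, hne.2]) k₁ ?_)
    have h1 : ag M s₁ ^ k₁ = (ag M s₂ ^ k₂ * ag M s₃ ^ k₃)⁻¹ :=
      eq_inv_of_mul_eq_one_left (by rw [← mul_assoc]; exact h)
    rw [h1]
    refine Subgroup.inv_mem _ (Subgroup.mul_mem _ (Subgroup.zpow_mem _ ?_ _)
      (Subgroup.zpow_mem _ ?_ _))
    · exact Subgroup.subset_closure ⟨s₂, by simp, rfl⟩
    · exact Subgroup.subset_closure ⟨s₃, by simp, rfl⟩
  intro s₁ s₂ s₃ k₁ k₂ k₃ hk₁ hk₂ hk₃ h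
  have h2 := T3.rot h
  have h3 := T3.rot h2
  have e1 := key s₁ s₂ s₃ k₁ k₂ k₃ hk₁ h
  have e2 := key s₂ s₃ s₁ k₂ k₃ k₁ hk₂ h2
  have e3 := key s₃ s₁ s₂ k₃ k₁ k₂ hk₃ h3
  rcases e1 with rfl | rfl
  · rcases e3 with rfl | rfl <;> exact ⟨rfl, rfl⟩
  · rcases e2 with rfl | rfl <;> exact ⟨rfl, rfl⟩

end Pool.Agent.Lib.MP_e6f638_al
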