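import Pool.Agent.Lib.MP_e6f638_al.T.Stmts16

/-!
# Module T4: killing a set of generators; the extension by one generator
-/

set_option autoImplicit false

namespace Pool.Agent.Lib.MP_e6f638_al

open Pool.Agent.Results.MP_e6f638_al.EvenArtin

namespace T4

variable {S : Type} (M : CoxeterMatrix S)

/-- The homomorphism given on the generators. -/
def liftA {K : Type} [Group K] (f : S → K)
    (h : ∀ s t, alt (f s) (f t) (M s t) = alt (f t) (f s) (M s t)) : ArtinGroup M →* K :=
  PresentedGroup.toGroup (f := f) (by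
    rintro r ⟨s, t, rfl⟩
    rw [map_mul, map_inv, map_alt, map_alt, FreeGroup.lift_apply_of, FreeGroup.lift_apply_of, h s t,
      mul_inv_cancel])

theorem liftA_ag {K : Type} [Group K] (f : S → K)
    (h : ∀ s t, alt (f s) (f t) (M s t) = alt (f t) (f s) (M s t)) (s : S) :
    liftA M f h (ag M s) = f s :=
  PresentedGroup.toGroup.of _

theorem rel_ag (s t : S) :
    alt (ag M s) (ag M t) (M s t) = alt (ag M t) (ag M s) (M s t) := by
  have h : (PresentedGroup.mk (artinRels M)) (alt (FreeGroup.of s) (FreeGroup.of t) (M s t) *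
      (alt (FreeGroup.of t) (FreeGroup.of s) (M s t))⁻¹) = 1 :=
    PresentedGroup.one_of_mem ⟨s, t, rfl⟩
  rw [map_mul, map_inv, map_alt, map_alt, mul_inv_eq_one] at h
  exact h

theorem alt_one_even {G : Type} [Group G] (a : G) {m : ℕ} (h : Even m) :
    alt a 1 m = alt 1 a m := by
  obtain ⟨n, rfl⟩ := h
  rw [← two_mul, alt_two_mul, alt_two_mul, mul_one, one_mul]

theorem hom_ext_AG {K : Type} [Group K] {F F' : ArtinGroup M →* K}
    (h : ∀ s, F (ag M s) = F' (ag M s)) : F = F' :=
  PresentedGroup.ext h

theorem alt_two' {G : Type} [Group G] (a b : G) : alt a b 2 = a * b := by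
  have := alt_two_mul a b 1
  rw [pow_one] at this
  exact this

theorem alt_four' {G : Type} [Group G] (a b : G) : alt a b 4 = (a * b) ^ 2 := alt_two_mul a b 2

/-- Killing the complement of `X`, with values in a group in which the generators of `X` live. -/
theorem kill {X : Set S} (hX : ∀ s ∈ X, ∀ t ∉ X, Even (M s t)) {K : Type} [Group K] (g : X → K)
    (hg : ∀ s t : X, alt (g s) (g t) (M s t) = alt (g t) (g s) (M s t)) :
    ∃ r : ArtinGroup M →* K, (∀ s : X, r (ag M s) = g s) ∧ ∀ s ∉ X, r (ag M s) = 1 := by
  classical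
  refine ⟨liftA M (fun s => if h : s ∈ X then g ⟨s, h⟩ else 1) ?_, ?_, ?_⟩
  · intro s t
    by_cases hs : s ∈ X
    · by_cases ht : t ∈ X
      · simp only [dif_pos hs, dif_pos ht]
        exact hg ⟨s, hs⟩ ⟨t, ht⟩
      · simp only [dif_pos hs, dif_neg ht]
        exact alt_one_even _ (hX s hs t ht)
    · by_cases ht : t ∈ X
      · simp only [dif_neg hs, dif_pos ht]
        have h := hX t ht s hs
        rw [M.symmetric] at h
        exact (alt_one_even _ h).symm
      · simp only [dif_neg hs, dif_neg ht]
  · intro s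
    rw [liftA_ag, dif_pos s.2]
  · intro s hs
    rw [liftA_ag, dif_neg hs]

/-- The inclusion of the complement of `u`. -/
noncomputable def inc (X : Set S) : ArtinGroup (res M X) →* ArtinGroup M :=
  liftA (res M X) (fun s => ag M s) (fun s t => rel_ag M s t)

theorem inc_ag (X : Set S) (s : X) : inc M X (ag _ s) = ag M s := liftA_ag _ _ _ _

theorem ext2 (u : S) (hu : ∀ s, s ≠ u → M u s = 2 ∨ M u s = 4) :
    IsExt2 (parM (res M {x | x ≠ u}) {s | M u s = 2})
      (fun y : {s : ({x | x ≠ u} : Set S) // M u s = 4} => ag (res M {x | x ≠ u}) y)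
      (ArtinGroup M) (inc M {x | x ≠ u}) (ag M u) where
  comm := by
    intro c hc
    have : Commute (inc M {x | x ≠ u} c) (ag M u) := by
      unfold parM at hc
      induction hc using Subgroup.closure_induction with
      | mem x hx =>
        obtain ⟨s, hs, rfl⟩ := hx
        rw [inc_ag]
        have h1 := rel_ag M u s
        have h2 : M u s = 2 := hs
        rw [h2, alt_two', alt_two'] at h1
        exact h1.symm
      | one => rw [map_one]; exact Commute.one_left _
      | mul x z _ _ hx hz => rw [map_mul]; exact hx.mul_left hz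
      | inv x _ hx => rw [map_inv]; exact hx.inv_left
    exact this.eq
  rel := by
    intro k
    rw [inc_ag]
    have h1 := rel_ag M u (k : ({x | x ≠ u} : Set S))
    have h2 : M u (k : ({x | x ≠ u} : Set S)) = 4 := k.2
    rw [h2, alt_four', alt_four'] at h1
    exact h1
  lift := by
    classical
    intro K _ f w hC hY
    have key : ∀ t : ({x | x ≠ u} : Set S),
        alt w (f (ag _ t)) (M u t) = alt (f (ag _ t)) w (M u t) := by
      intro t
      rcases hu t t.2 with h | h
      · rw [h, alt_two', alt_two']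
        exact (hC _ (Subgroup.subset_closure ⟨t, h, rfl⟩)).symm
      · rw [h, alt_four', alt_four']
        exact hY ⟨t, h⟩
    refine ⟨liftA M (fun s => if h : s = u then w else f (ag (res M {x | x ≠ u}) ⟨s, h⟩)) ?_,
      ?_, ?_⟩
    · intro s t
      by_cases hs : s = u
      · by_cases ht : t = u
        · simp only [dif_pos hs, dif_pos ht]
        · simp only [dif_pos hs, dif_neg ht]
          subst hs
          exact key ⟨t, ht⟩
      · by_cases ht : t = u
        · simp only [dif_neg hs, dif_pos ht]
          subst ht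
          rw [M.symmetric s t]
          exact (key ⟨s, hs⟩).symm
        · simp only [dif_neg hs, dif_neg ht]
          have h := rel_ag (res M {x | x ≠ u}) ⟨s, hs⟩ ⟨t, ht⟩
          have h2 := congrArg f h
          rw [map_alt, map_alt] at h2
          exact h2
    · refine hom_ext_AG _ fun s => ?_
      rw [MonoidHom.comp_apply, inc_ag, liftA_ag, dif_neg s.2]
    · rw [liftA_ag, dif_pos rfl]
  gen := by
    rw [eq_top_iff, ← PresentedGroup.closure_range_of (artinRels M), Subgroup.closure_le]
    rintro _ ⟨s, rfl⟩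
    apply Subgroup.subset_closure
    by_cases hs : s = u
    · right
      rw [Set.mem_singleton_iff, hs]
      rfl
    · left
      exact ⟨ag _ ⟨s, hs⟩, inc_ag M {x | x ≠ u} ⟨s, hs⟩⟩

end T4

open T4 in
/-- Module T4. -/
theorem stT4 : StT4 := by
  refine ⟨?_, ?_⟩
  · intro S M X hX
    refine ⟨?_, ?_⟩
    · obtain ⟨r, h1, h2⟩ := kill M hX (fun s : X => ag M s) (fun s t => T4.rel_ag M s t)
      exact ⟨r, fun s hs => h1 ⟨s, hs⟩, h2⟩
    · exact kill M hX (fun s : X => ag (res M X) s) (fun s t => T4.rel_ag (res M X) s t)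
  · intro S M u hu
    exact ⟨T4.inc M {x | x ≠ u}, fun s => T4.inc_ag M _ s, T4.ext2 M u hu⟩

end Pool.Agent.Lib.MP_e6f638_al
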