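import Pool.Agent.Lib.MP_e6f638_al.T.Stmts16
import Pool.Agent.Lib.MP_e6f638_al.J.JH_14

/-!
# Module T5: the induction for a generator which is a class
-/

set_option autoImplicit false

namespace Pool.Agent.Lib.MP_e6f638_al

open Multiplicative Pool.Agent.Results.MP_e6f638_al.EvenArtin

namespace T5

theorem cca_mono {G : Type} [Group G] {C C' : Subgroup G} {u : G} (h : CCa C u) (hC : C' ≤ C) :
    CCa C' u :=
  ⟨fun a ha => h.two a (hC ha), fun a ha b hb => h.three a (hC ha) b (hC hb)⟩

theorem cca_map {G K : Type} [Group G] [Group K] (F : G →* K) (hF : Function.Injective F)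
    {C : Subgroup G} {u : G} (h : CCa C u) {C' : Subgroup K} (hC : C' ≤ C.map F) :
    CCa C' (F u) := by
  constructor
  · intro a ha m hm he
    obtain ⟨a', ha', rfl⟩ := hC ha
    have h1 : a' * u ^ m * a'⁻¹ = u ^ m := by
      apply hF
      rw [map_mul, map_mul, map_inv, map_zpow, he]
    exact (h.two a' ha' m hm h1).map F
  · intro a ha b hb k₁ k₂ k₃ h1 h2 h3 he
    obtain ⟨a', ha', rfl⟩ := hC ha
    obtain ⟨b', hb', rfl⟩ := hC hb
    have h4 : u ^ k₁ * (a' * u ^ k₂ * a'⁻¹) * (b' * u ^ k₃ * b'⁻¹) = 1 := by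
      apply hF
      rw [map_mul, map_mul, map_mul, map_mul, map_mul, map_mul, map_inv, map_inv, map_zpow,
        map_zpow, map_zpow, map_one, he]
    rcases h.three a' ha' b' hb' k₁ k₂ k₃ h1 h2 h3 h4 with h5 | h5 | h5
    · exact Or.inl (h5.map F)
    · exact Or.inr (Or.inl (h5.map F))
    · refine Or.inr (Or.inr ?_)
      have h6 := h5.map F
      rw [map_mul, map_inv] at h6
      exact h6

theorem mod_res {S ι : Type} {M : CoxeterMatrix S} {c : S → ι} (h : Mod M c) (X : Set S) :
    Mod (res M X) (fun x : X => c x) :=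
  ⟨fun s t hst => h.two_or_four s t hst, fun s s' t h1 h2 => h.const s s' t h1 h2⟩

theorem range_ag {S : Type} (M : CoxeterMatrix S) : Subgroup.closure (Set.range (ag M)) = ⊤ :=
  PresentedGroup.closure_range_of _

/-- The step. -/
theorem step (hVL : StVL) (h2 : StT2) (h2' : StT2') (h3 : StT3) (h4 : StT4)
    (S : Type) [Finite S] (ι : Type) (M : CoxeterMatrix S) (c : S → ι) (hM : Mod M c) (u : S)
    (hu : ∀ s, c s = c u → s = u)
    (ih : ∀ (S' : Type) [Finite S'] (M' : CoxeterMatrix S') (c' : S' → ι),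
      Nat.card S' < Nat.card S → Mod M' c' → ∀ u' : S', (∀ s, c' s = c' u' → s = u') →
      CCa (parM M' {s | s ≠ u'}) (ag M' u')) :
    CCa (parM M {s | s ≠ u}) (ag M u) ∧
      ∃ (W : Type) (F : Subgroup.normalClosure {ag M u ^ 2} →* FreeGroup W),
        Function.Injective F := by
  have hne : ∀ s, s ≠ u → c u ≠ c s := fun s hs h => hs (hu s h.symm)
  have h24 : ∀ s, s ≠ u → M u s = 2 ∨ M u s = 4 := fun s hs => hM.two_or_four u s (hne s hs)
  -- different labels with `u` are in different classes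
  have hcl : ∀ s t : S, s ≠ u → M u s ≠ M u t → c s ≠ c t := by
    intro s t hs hst h
    apply hst
    rw [M.symmetric u s, M.symmetric u t]
    exact hM.const s t u h fun h' => hs (hu s h')
  obtain ⟨i, hi, hext⟩ := h4.2 S M u h24
  let X0 : Set S := {x | x ≠ u}
  let M' : CoxeterMatrix X0 := res M X0
  let X2 : Set X0 := {s | M u s = 2}
  let X4 : Set X0 := {s | M u s = 4}
  have hev : ∀ s t : S, c s ≠ c t → Even (M s t) := by
    intro s t hst
    rcases hM.two_or_four s t hst with h | h <;> rw [h] <;> decide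
  have hev2 : ∀ s ∈ X2, ∀ t ∉ X2, Even (M' s t) := by
    intro s hs t ht
    refine hev s t (hcl s t s.2 fun h => ht ?_)
    exact h.symm.trans hs
  have hev4 : ∀ s ∈ X4, ∀ t ∉ X4, Even (M' s t) := by
    intro s hs t ht
    refine hev s t (hcl s t s.2 fun h => ht ?_)
    exact h.symm.trans hs
  obtain ⟨⟨r, hr1, hr2⟩, -⟩ := h4.1 X0 M' X2 hev2
  obtain ⟨-, p, hp1, hp2⟩ := h4.1 X0 M' X4 hev4
  let y : {s : X0 // M u s = 4} → ArtinGroup M' := fun y => ag M' y
  have hgeo : IsGeo (gpt (parM M' X2) y) := by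
    refine h2 (ArtinGroup M') (parM M' X2) _ y r (ArtinGroup (res M' X4)) p ?_ ?_ ?_ ?_ ?_ ?_ ?_
    · intro a ha
      have h1 : parM M' X2 ≤ MonoidHom.eqLocus r (MonoidHom.id _) := by
        unfold parM
        rw [Subgroup.closure_le]
        rintro _ ⟨s, hs, rfl⟩
        exact hr1 s hs
      exact h1 ha
    · intro g
      have h1 : (⊤ : Subgroup (ArtinGroup M')) ≤ (parM M' X2).comap r := by
        rw [← range_ag, Subgroup.closure_le]
        rintro _ ⟨s, rfl⟩
        change r (ag M' s) ∈ parM M' X2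
        by_cases hs : s ∈ X2
        · rw [hr1 s hs]
          exact Subgroup.subset_closure ⟨s, hs, rfl⟩
        · rw [hr2 s hs]
          exact Subgroup.one_mem _
      exact h1 (Subgroup.mem_top g)
    · intro k
      refine hr2 k fun h => ?_
      have h1 : M u k = 2 := h
      have h2 := k.2
      omega
    · intro a ha
      have h1 : parM M' X2 ≤ p.ker := by
        unfold parM
        rw [Subgroup.closure_le]
        rintro _ ⟨s, hs, rfl⟩
        refine hp2 s fun h => ?_
        have h1 : M u s = 4 := h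
        have h2 : M u s = 2 := hs
        omega
      exact h1 ha
    · intro k n hk
      have h1 : p (y k) = ag (res M' X4) ⟨k.1, k.2⟩ := hp1 ⟨k.1, k.2⟩
      rw [h1] at hk
      exact (h3 X4 (res M' X4)).1 _ n hk
    · intro j₁ j₂ j₃ k₁ k₂ k₃ hk₁ hk₂ hk₃ he
      have e1 : ∀ k, p (y k) = ag (res M' X4) ⟨k.1, k.2⟩ := fun k => hp1 ⟨k.1, k.2⟩
      rw [e1, e1, e1] at he
      obtain ⟨h1, h2⟩ := (h3 X4 (res M' X4)).2 _ _ _ k₁ k₂ k₃ hk₁ hk₂ hk₃ he
      exact ⟨Subtype.ext (congrArg (fun x : X4 => (x : X0)) h1),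
        Subtype.ext (congrArg (fun x : X4 => (x : X0)) h2)⟩
    · intro k
      let s₀ : X0 := k.1
      have hs₀ : M u s₀ = 4 := k.2
      let Y : Set X0 := insert s₀ X2
      let u' : Y := ⟨s₀, Set.mem_insert _ _⟩
      have hcard : Nat.card Y < Nat.card S := by
        have h1 : Nat.card Y ≤ Nat.card X0 := Finite.card_subtype_le _
        have h2 : Nat.card X0 < Nat.card S :=
          Finite.card_subtype_lt (p := fun x => x ≠ u) (x := u) (fun h => h rfl)
        omega
      have hfib : ∀ x : Y, c x = c u' → x = u' := by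
        intro x hx
        rcases x.2 with h | h
        · exact Subtype.ext h
        · exfalso
          have h1 : M u x = 2 := h
          refine hcl x s₀ x.1.2 ?_ hx
          rw [h1, hs₀]
          decide
      have hcca := ih Y (res M' Y) (fun x => c x) hcard (mod_res (mod_res hM X0) Y) u' hfib
      obtain ⟨F, hF⟩ := stJH.1 Y (res M' Y) (ArtinGroup M') (fun s => ag M' s)
        (fun s t => stJH.2.1 X0 M' s t)
      have hinj := hVL X0 M' Y F hF
      have h1 := cca_map F hinj hcca (C' := parM M' X2) (by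
        unfold parM
        rw [Subgroup.closure_le]
        rintro _ ⟨s, hs, rfl⟩
        refine ⟨ag (res M' Y) ⟨s, Set.mem_insert_of_mem _ hs⟩, ?_, hF _⟩
        refine Subgroup.subset_closure ⟨_, ?_, rfl⟩
        intro h
        have h1 : s = s₀ := congrArg (fun x : Y => (x : X0)) h
        have h2 : M u s = 2 := hs
        rw [h1, hs₀] at h2
        exact absurd h2 (by decide))
      rw [hF] at h1
      exact h1
  obtain ⟨h5, h6⟩ := h2' (ArtinGroup M') (parM M' X2) _ y (ArtinGroup M) i (ag M u) hext hgeo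
  refine ⟨cca_mono h5 ?_, h6⟩
  unfold parM
  rw [Subgroup.closure_le]
  rintro _ ⟨s, hs, rfl⟩
  exact ⟨ag _ ⟨s, hs⟩, hi ⟨s, hs⟩⟩

end T5

/-- Module T5. -/
theorem stT5_21 (hVL : StVL) (h2 : StT2) (h2' : StT2') (h3 : StT3) (h4 : StT4) : StT5 := by
  have key : ∀ n : ℕ, ∀ (S : Type) [Finite S] (ι : Type) (M : CoxeterMatrix S) (c : S → ι),
      Nat.card S = n → Mod M c → ∀ u : S, (∀ s, c s = c u → s = u) →
      CCa (parM M {s | s ≠ u}) (ag M u) ∧
        ∃ (W : Type) (F : Subgroup.normalClosure {ag M u ^ 2} →* FreeGroup W),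
          Function.Injective F := by
    intro n
    induction n using Nat.strong_induction_on with
    | _ n ih =>
      intro S _ ι M c hn hM u hu
      refine T5.step hVL h2 h2' h3 h4 S ι M c hM u hu ?_
      intro S' _ M' c' hS' hM' u' hu'
      exact (ih _ (hn ▸ hS') S' ι M' c' rfl hM' u' hu').1
  intro S _ ι M c hM u hu
  exact key _ S ι M c rfl hM u hu

end Pool.Agent.Lib.MP_e6f638_al
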