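import Pool.Agent.Lib.MP_e6f638_al.T.Stmts16

/-!
# Module T6: the quotient of an Artin group by the square of a generator

All labels of `u` are `2` or `4`. The group `A_M / u ^ 2` maps to the semidirect product of the
Artin group of `hatM M u` with the group of order two which exchanges the two copies of the
generators with label `4` with `u`.
-/

set_option autoImplicit false

namespace Pool.Agent.Lib.MP_e6f638_al

open Multiplicative Pool.Agent.Results.MP_e6f638_al.EvenArtin

namespace T6

/-- The homomorphism from the group of order two given by an involution. -/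
def hom2 {H : Type} [Group H] (a : H) (h : a * a = 1) : Multiplicative (ZMod 2) →* H where
  toFun z := if z = 1 then 1 else a
  map_one' := if_pos rfl
  map_mul' := by
    intro z w
    have key : ∀ z : Multiplicative (ZMod 2), z = 1 ∨ z = ofAdd 1 := by decide
    have h01 : (ofAdd (1 : ZMod 2)) ≠ 1 := by decide
    have h11 : (ofAdd (1 : ZMod 2)) * ofAdd 1 = 1 := by decide
    rcases key z with rfl | rfl
    · rw [one_mul, if_pos rfl, one_mul]
    · rcases key w with rfl | rfl
      · rw [mul_one, if_pos (rfl : (1 : Multiplicative (ZMod 2)) = 1), mul_one]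
      · rw [h11, if_pos rfl, if_neg h01, h]

theorem hom2_one {H : Type} [Group H] (a : H) (h : a * a = 1) : hom2 a h (ofAdd 1) = a := by
  change (if (ofAdd (1 : ZMod 2)) = 1 then (1 : H) else a) = a
  exact if_neg (by decide)

theorem key2 (z : Multiplicative (ZMod 2)) : z = 1 ∨ z = ofAdd 1 := by
  revert z; decide

/-! ## Artin groups -/

section

variable {S : Type} (M : CoxeterMatrix S)

theorem ag_rel (s t : S) : alt (ag M s) (ag M t) (M s t) = alt (ag M t) (ag M s) (M s t) := by
  have h : (PresentedGroup.mk (artinRels M)) (alt (FreeGroup.of s) (FreeGroup.of t) (M s t) *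
      (alt (FreeGroup.of t) (FreeGroup.of s) (M s t))⁻¹) = 1 :=
    PresentedGroup.one_of_mem ⟨s, t, rfl⟩
  rw [map_mul, map_inv, map_alt, map_alt, mul_inv_eq_one] at h
  exact h

/-- The homomorphism given on generators. -/
noncomputable def liftA {K : Type} [Group K] (f : S → K)
    (h : ∀ s t, alt (f s) (f t) (M s t) = alt (f t) (f s) (M s t)) : ArtinGroup M →* K :=
  PresentedGroup.toGroup (f := f) (by
    rintro r ⟨s, t, rfl⟩
    rw [map_mul, map_inv, map_alt, map_alt, FreeGroup.lift_apply_of, FreeGroup.lift_apply_of, h,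
      mul_inv_cancel])

theorem liftA_ag {K : Type} [Group K] (f : S → K)
    (h : ∀ s t, alt (f s) (f t) (M s t) = alt (f t) (f s) (M s t)) (s : S) :
    liftA M f h (ag M s) = f s :=
  PresentedGroup.toGroup.of _

theorem hom_ext {K : Type} [Group K] {f g : ArtinGroup M →* K}
    (h : ∀ s, f (ag M s) = g (ag M s)) : f = g :=
  PresentedGroup.ext h

theorem alt_two {G : Type} [Group G] (a b : G) : alt a b 2 = a * b := by
  have h := alt_two_mul a b 1
  rwa [mul_one, pow_one] at h

theorem alt_four {G : Type} [Group G] (a b : G) : alt a b 4 = (a * b) ^ 2 := alt_two_mul a b 2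

theorem alt_conj {G : Type} [Group G] (g a b : G) (n : ℕ) :
    alt (g * a * g⁻¹) (g * b * g⁻¹) n = g * alt a b n * g⁻¹ :=
  (map_alt (MulAut.conj g).toMonoidHom a b n).symm

theorem sq_comm {G : Type} [Group G] {a b : G} (h : (a * b) ^ 2 = (b * a) ^ 2) (h' : a⁻¹ = a) :
    b * (a * b * a⁻¹) = (a * b * a⁻¹) * b := by
  rw [pow_two, pow_two] at h
  rw [h']
  simp only [mul_assoc] at h ⊢
  exact h.symm

end

section

variable {S : Type} (M : CoxeterMatrix S) (u : S)

/-- The exchange of the two copies. -/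
noncomputable def sw : HS M u → HS M u
  | .inl s => if h : M u s = 4 then .inr ⟨s, s.2, h⟩ else .inl s
  | .inr s => .inl ⟨s, s.2.1⟩

theorem sw_four (s : {x : S // x ≠ u}) (h : M u s = 4) : sw M u (.inl s) = .inr ⟨s, s.2, h⟩ :=
  dif_pos h

theorem sw_not (s : {x : S // x ≠ u}) (h : ¬ M u s = 4) : sw M u (.inl s) = .inl s := dif_neg h

theorem sw_inr (s : {x : S // x ≠ u ∧ M u x = 4}) : sw M u (.inr s) = .inl ⟨s, s.2.1⟩ := rfl

theorem sw_sw (a : HS M u) : sw M u (sw M u a) = a := by
  rcases a with s | s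
  · by_cases h : M u s = 4
    · rw [sw_four M u s h, sw_inr]
    · rw [sw_not M u s h, sw_not M u s h]
  · rw [sw_inr, sw_four M u ⟨s, s.2.1⟩ s.2.2]

theorem hat_ll (s t : {x : S // x ≠ u}) : hatM M u (.inl s) (.inl t) = M s t := rfl

theorem hat_rr (s t : {x : S // x ≠ u ∧ M u x = 4}) : hatM M u (.inr s) (.inr t) = M s t := rfl

theorem hat_lr_one (s : {x : S // x ≠ u}) (t : {x : S // x ≠ u ∧ M u x = 4}) (h : ¬ M u s = 4) :
    hatM M u (.inl s) (.inr t) = M s t := if_neg h

theorem hat_rl_one (s : {x : S // x ≠ u ∧ M u x = 4}) (t : {x : S // x ≠ u}) (h : ¬ M u t = 4) :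
    hatM M u (.inr s) (.inl t) = M s t := if_neg h

theorem hat_lr_eq (s : {x : S // x ≠ u}) (t : {x : S // x ≠ u ∧ M u x = 4}) (h : M u s = 4)
    (hst : (s : S) = t) : hatM M u (.inl s) (.inr t) = 2 := (if_pos h).trans (if_pos hst)

theorem hat_lr_ne (s : {x : S // x ≠ u}) (t : {x : S // x ≠ u ∧ M u x = 4}) (h : M u s = 4)
    (hst : (s : S) ≠ t) : hatM M u (.inl s) (.inr t) = 0 := (if_pos h).trans (if_neg hst)

theorem hat_rl_eq (s : {x : S // x ≠ u ∧ M u x = 4}) (t : {x : S // x ≠ u}) (h : M u t = 4)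
    (hst : (s : S) = t) : hatM M u (.inr s) (.inl t) = 2 := (if_pos h).trans (if_pos hst)

theorem hat_rl_ne (s : {x : S // x ≠ u ∧ M u x = 4}) (t : {x : S // x ≠ u}) (h : M u t = 4)
    (hst : (s : S) ≠ t) : hatM M u (.inr s) (.inl t) = 0 := (if_pos h).trans (if_neg hst)

theorem hat_sw (a b : HS M u) : hatM M u (sw M u a) (sw M u b) = hatM M u a b := by
  rcases a with s | s <;> rcases b with t | t
  · by_cases hs : M u s = 4
    · rw [sw_four M u s hs]
      by_cases ht : M u t = 4
      · rw [sw_four M u t ht, hat_rr, hat_ll]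
      · rw [sw_not M u t ht, hat_rl_one M u _ _ ht, hat_ll]
    · rw [sw_not M u s hs]
      by_cases ht : M u t = 4
      · rw [sw_four M u t ht, hat_lr_one M u _ _ hs, hat_ll]
      · rw [sw_not M u t ht]
  · rw [sw_inr]
    by_cases hs : M u s = 4
    · rw [sw_four M u s hs]
      by_cases hst : (s : S) = t
      · rw [hat_rl_eq M u _ _ t.2.2 hst, hat_lr_eq M u _ _ hs hst]
      · rw [hat_rl_ne M u _ _ t.2.2 hst, hat_lr_ne M u _ _ hs hst]
    · rw [sw_not M u s hs, hat_ll, hat_lr_one M u _ _ hs]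
  · rw [sw_inr]
    by_cases ht : M u t = 4
    · rw [sw_four M u t ht]
      by_cases hst : (s : S) = t
      · rw [hat_lr_eq M u _ _ s.2.2 hst, hat_rl_eq M u _ _ ht hst]
      · rw [hat_lr_ne M u _ _ s.2.2 hst, hat_rl_ne M u _ _ ht hst]
    · rw [sw_not M u t ht, hat_ll, hat_rl_one M u _ _ ht]
  · rw [sw_inr, sw_inr, hat_ll, hat_rr]

/-- The exchange as an endomorphism. -/
noncomputable def sg : ArtinGroup (hatM M u) →* ArtinGroup (hatM M u) :=
  liftA (hatM M u) (fun a => ag (hatM M u) (sw M u a)) (fun a b => by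
    have h := ag_rel (hatM M u) (sw M u a) (sw M u b)
    rwa [hat_sw M u a b] at h)

theorem sg_ag (a : HS M u) : sg M u (ag (hatM M u) a) = ag (hatM M u) (sw M u a) :=
  liftA_ag _ _ _ _

theorem sg_sg : (sg M u).comp (sg M u) = MonoidHom.id _ :=
  hom_ext _ fun a => by
    rw [MonoidHom.comp_apply, sg_ag, sg_ag, sw_sw, MonoidHom.id_apply]

/-- The exchange as an automorphism. -/
noncomputable def sgE : MulAut (ArtinGroup (hatM M u)) :=
  MonoidHom.toMulEquiv (sg M u) (sg M u) (sg_sg M u) (sg_sg M u)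

theorem sgE_apply (x : ArtinGroup (hatM M u)) : sgE M u x = sg M u x := rfl

theorem sgE_mul : sgE M u * sgE M u = 1 := by
  ext x
  exact DFunLike.congr_fun (sg_sg M u) x

/-- The action of the group of order two. -/
noncomputable def ph : Multiplicative (ZMod 2) →* MulAut (ArtinGroup (hatM M u)) :=
  hom2 (sgE M u) (sgE_mul M u)

theorem ph_one : ph M u (ofAdd 1) = sgE M u := hom2_one _ _

/-- The semidirect product. -/
abbrev QQ : Type := ArtinGroup (hatM M u) ⋊[ph M u] Multiplicative (ZMod 2)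

/-- The element of order two. -/
noncomputable def τ : QQ M u := SemidirectProduct.inr (ofAdd 1)

theorem τ_mul_self : τ M u * τ M u = 1 := by
  rw [τ, ← map_mul, (by decide : (ofAdd (1 : ZMod 2)) * ofAdd 1 = 1), map_one]

theorem τ_inl (x : ArtinGroup (hatM M u)) :
    τ M u * SemidirectProduct.inl x = SemidirectProduct.inl (sg M u x) * τ M u := by
  have h := SemidirectProduct.inl_aut (φ := ph M u) (ofAdd (1 : ZMod 2)) x
  rw [ph_one, sgE_apply] at h
  rw [h, τ, map_inv, inv_mul_cancel_right]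

/-- The first copies. -/
noncomputable def ga (s : {x : S // x ≠ u}) : QQ M u :=
  SemidirectProduct.inl (ag (hatM M u) (.inl s))

theorem rel_ga (hl : ∀ s, s ≠ u → M u s = 2 ∨ M u s = 4) (t : {x : S // x ≠ u}) :
    alt (τ M u) (ga M u t) (M u t) = alt (ga M u t) (τ M u) (M u t) := by
  rcases hl t t.2 with h | h
  · rw [h, alt_two, alt_two, ga, τ_inl, sg_ag, sw_not M u t (by omega)]
  · have hc := ag_rel (hatM M u) (.inl t) (.inr ⟨t, t.2, h⟩)
    rw [hat_lr_eq M u _ _ h rfl, alt_two, alt_two] at hc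
    have e1 : τ M u * ga M u t = SemidirectProduct.inl (ag (hatM M u) (.inr ⟨t, t.2, h⟩)) *
        τ M u := by rw [ga, τ_inl, sg_ag, sw_four M u t h]
    have e2 : (τ M u * ga M u t) ^ 2 = SemidirectProduct.inl (ag (hatM M u) (.inr ⟨t, t.2, h⟩)) *
        ga M u t := by
      rw [pow_two]
      nth_rewrite 1 [e1]
      rw [mul_assoc, ← mul_assoc (τ M u) (τ M u), τ_mul_self, one_mul]
    have e3 : (ga M u t * τ M u) ^ 2 = ga M u t *
        SemidirectProduct.inl (ag (hatM M u) (.inr ⟨t, t.2, h⟩)) := by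
      rw [pow_two, mul_assoc, ← mul_assoc (τ M u) (ga M u t), e1, mul_assoc, τ_mul_self, mul_one]
    rw [h, alt_four, alt_four, e2, e3, ga, ← map_mul, ← map_mul, hc]

open Classical in
/-- The map to the semidirect product. -/
noncomputable def La (hl : ∀ s, s ≠ u → M u s = 2 ∨ M u s = 4) : ArtinGroup M →* QQ M u :=
  liftA M (fun s => if h : s = u then τ M u else ga M u ⟨s, h⟩) (by
    intro s t
    by_cases hs : s = u
    · by_cases ht : t = u
      · simp only [dif_pos hs, dif_pos ht]
      · simp only [dif_pos hs, dif_neg ht]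
        rw [hs]
        exact rel_ga M u hl ⟨t, ht⟩
    · by_cases ht : t = u
      · simp only [dif_pos ht, dif_neg hs]
        rw [ht, M.symmetric s u]
        exact (rel_ga M u hl ⟨s, hs⟩).symm
      · simp only [dif_neg hs, dif_neg ht]
        have h := ag_rel (hatM M u) (.inl ⟨s, hs⟩) (.inl ⟨t, ht⟩)
        rw [hat_ll] at h
        rw [ga, ga, ← map_alt, ← map_alt, h])

theorem La_u (hl : ∀ s, s ≠ u → M u s = 2 ∨ M u s = 4) : La M u hl (ag M u) = τ M u := by
  rw [La, liftA_ag, dif_pos rfl]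

theorem La_s (hl : ∀ s, s ≠ u → M u s = 2 ∨ M u s = 4) (s : {x : S // x ≠ u}) :
    La M u hl (ag M s) = ga M u s := by
  rw [La, liftA_ag, dif_neg s.2]

/-- The quotient by the square. -/
abbrev Q0 : Type := ArtinGroup M ⧸ Subgroup.normalClosure {ag M u ^ 2}

/-- The image of an element. -/
def mk0 : ArtinGroup M →* Q0 M u := QuotientGroup.mk' _

theorem uu : mk0 M u (ag M u) * mk0 M u (ag M u) = 1 := by
  rw [← map_mul, ← pow_two]
  exact (QuotientGroup.eq_one_iff _).2 (Subgroup.subset_normalClosure rfl)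

/-- The images of the generators. -/
def fb : HS M u → Q0 M u
  | .inl s => mk0 M u (ag M s)
  | .inr s => mk0 M u (ag M u) * mk0 M u (ag M s) * (mk0 M u (ag M u))⁻¹

theorem mk_rel (s t : S) : alt (mk0 M u (ag M s)) (mk0 M u (ag M t)) (M s t) =
    alt (mk0 M u (ag M t)) (mk0 M u (ag M s)) (M s t) := by
  rw [← map_alt, ← map_alt, ag_rel]

theorem fb_sw (hl : ∀ s, s ≠ u → M u s = 2 ∨ M u s = 4) (a : HS M u) :
    fb M u (sw M u a) = mk0 M u (ag M u) * fb M u a * (mk0 M u (ag M u))⁻¹ := by
  rcases a with s | s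
  · rcases hl s s.2 with h | h
    · rw [sw_not M u s (by omega)]
      have hr := mk_rel M u u s
      rw [h, alt_two, alt_two] at hr
      change mk0 M u (ag M s) = _ * mk0 M u (ag M s) * _
      rw [hr, mul_inv_cancel_right]
    · rw [sw_four M u s h]
      rfl
  · rw [sw_inr]
    change mk0 M u (ag M s) = mk0 M u (ag M u) *
      (mk0 M u (ag M u) * mk0 M u (ag M s) * (mk0 M u (ag M u))⁻¹) * (mk0 M u (ag M u))⁻¹
    have h := uu M u
    have h' : (mk0 M u (ag M u))⁻¹ = mk0 M u (ag M u) := (eq_inv_of_mul_eq_one_left h).symm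
    rw [h', ← mul_assoc, ← mul_assoc, h, one_mul, mul_assoc, h, mul_one]

theorem fb_lr (hl : ∀ s, s ≠ u → M u s = 2 ∨ M u s = 4) (s : {x : S // x ≠ u})
    (t : {x : S // x ≠ u ∧ M u x = 4}) :
    alt (fb M u (.inl s)) (fb M u (.inr t)) (hatM M u (.inl s) (.inr t)) =
      alt (fb M u (.inr t)) (fb M u (.inl s)) (hatM M u (.inl s) (.inr t)) := by
  by_cases hs : M u s = 4
  · by_cases hst : (s : S) = t
    · rw [hat_lr_eq M u _ _ hs hst, alt_two, alt_two]
      have h := mk_rel M u u s
      rw [hs, alt_four, alt_four] at h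
      have h' : (mk0 M u (ag M u))⁻¹ = mk0 M u (ag M u) :=
        (eq_inv_of_mul_eq_one_left (uu M u)).symm
      have e : fb M u (.inr t) = mk0 M u (ag M u) * mk0 M u (ag M s) *
          (mk0 M u (ag M u))⁻¹ := by rw [hst]; rfl
      rw [e]
      exact sq_comm h h'
    · rw [hat_lr_ne M u _ _ hs hst]
      rfl
  · rw [hat_lr_one M u _ _ hs]
    have e := fb_sw M u hl (.inl s)
    rw [sw_not M u s hs] at e
    have e' : fb M u (.inl s) = mk0 M u (ag M u) * mk0 M u (ag M s) * (mk0 M u (ag M u))⁻¹ := e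
    have e'' : fb M u (.inr t) = mk0 M u (ag M u) * mk0 M u (ag M t) * (mk0 M u (ag M u))⁻¹ := rfl
    rw [e', e'', alt_conj, alt_conj, mk_rel]

theorem fb_rel (hl : ∀ s, s ≠ u → M u s = 2 ∨ M u s = 4) (a b : HS M u) :
    alt (fb M u a) (fb M u b) (hatM M u a b) = alt (fb M u b) (fb M u a) (hatM M u a b) := by
  rcases a with s | s <;> rcases b with t | t
  · exact mk_rel M u s t
  · exact fb_lr M u hl s t
  · rw [(hatM M u).symmetric]
    exact (fb_lr M u hl t s).symm
  · have e : ∀ t : {x : S // x ≠ u ∧ M u x = 4},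
        fb M u (.inr t) = mk0 M u (ag M u) * mk0 M u (ag M t) * (mk0 M u (ag M u))⁻¹ :=
      fun _ => rfl
    rw [e, e, alt_conj, alt_conj, hat_rr, mk_rel]

/-- The map from the group with the two copies. -/
noncomputable def Fb (hl : ∀ s, s ≠ u → M u s = 2 ∨ M u s = 4) :
    ArtinGroup (hatM M u) →* Q0 M u :=
  liftA (hatM M u) (fb M u) (fb_rel M u hl)

/-- The map from the semidirect product. -/
noncomputable def Bb (hl : ∀ s, s ≠ u → M u s = 2 ∨ M u s = 4) : QQ M u →* Q0 M u :=
  SemidirectProduct.lift (Fb M u hl) (hom2 (mk0 M u (ag M u)) (uu M u)) (by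
    intro z
    rcases key2 z with rfl | rfl
    · refine MonoidHom.ext fun x => ?_
      rw [map_one, map_one, map_one]
      rfl
    · rw [hom2_one]
      refine hom_ext _ fun a => ?_
      change Fb M u hl (ph M u (ofAdd 1) (ag (hatM M u) a)) =
        mk0 M u (ag M u) * Fb M u hl (ag (hatM M u) a) * (mk0 M u (ag M u))⁻¹
      rw [ph_one, sgE_apply, sg_ag, Fb, liftA_ag, liftA_ag, fb_sw M u hl])

theorem Bb_La (hl : ∀ s, s ≠ u → M u s = 2 ∨ M u s = 4) (x : ArtinGroup M) :
    Bb M u hl (La M u hl x) = mk0 M u x := by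
  have h : (Bb M u hl).comp (La M u hl) = mk0 M u := by
    refine hom_ext _ fun s => ?_
    rw [MonoidHom.comp_apply]
    by_cases hs : s = u
    · subst hs
      rw [La_u, Bb, τ, SemidirectProduct.lift_inr, hom2_one]
    · rw [La_s M u hl ⟨s, hs⟩, Bb, ga, SemidirectProduct.lift_inl, Fb, liftA_ag]
      rfl
  exact DFunLike.congr_fun h x

end

end T6

open T6 in
/-- Module T6. The quotient by the square of `u`. -/
theorem stT6 : StT6 := by
  intro S M u hl
  refine ⟨QQ M u, inferInstance, La M u hl, SemidirectProduct.rightHom,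
    { toFun := fun x => x.1.left
      map_one' := rfl
      map_mul' := ?_ }, ?_, ?_⟩
  · intro x y
    have hx : x.1.right = 1 := x.2
    change x.1.left * ph M u x.1.right y.1.left = _
    rw [hx, map_one]
    rfl
  · intro x y h
    have hx : x.1.right = 1 := x.2
    have hy : y.1.right = 1 := y.2
    exact Subtype.ext (SemidirectProduct.ext h (hx.trans hy.symm))
  · intro x hx
    have h := Bb_La M u hl x
    rw [MonoidHom.mem_ker.1 hx, map_one] at h
    exact (QuotientGroup.eq_one_iff x).1 h.symm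

end Pool.Agent.Lib.MP_e6f638_al
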