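import Pool.Agent.Lib.MP_e6f638_al.T.Stmts16
import Pool.Agent.Lib.MP_e6f638_al.V.Main77

/-!
# Artin groups whose odd components are modules: the two classes of groups
-/

set_option autoImplicit false

namespace Pool.Agent.Lib.MP_e6f638_al

open Multiplicative Pool.Agent.Results.MP_e6f638_al.EvenArtin

/-- Extensions by groups which embed in free groups. -/
theorem vta_ext (G Q : Type) [Group G] [Group Q] (f : G →* Q)
    (hk : ∃ (W : Type) (F : f.ker →* FreeGroup W), Function.Injective F) (hQ : VTA Q) : VTA G := by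
  obtain ⟨W, F, hF⟩ := hk
  obtain ⟨N, d, h⟩ := hQ
  refine ⟨N, d + 1, fun H hH => ?_⟩
  obtain ⟨A, hA0, hAN, hAd⟩ := h (H.map f) fun h => hH (hasF2_of_map _ h)
  let p : H →* H.map f := f.subgroupMap H
  have hp : Function.Surjective p := f.subgroupMap_surjective H
  have hp0 : (A.comap p).index = A.index := Subgroup.index_comap_of_surjective A hp
  refine ⟨A.comap p, by rw [hp0]; exact hA0, by rw [hp0]; exact hAN, ?_⟩
  have h1 : derivedSeries (H.subgroupOf f.ker) 1 = ⊥ := by
    refine TA.of_inj F hF (ta_free W) _ fun h3 => hH ?_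
    have h4 := h3.map f.ker.subtype Subtype.val_injective
    refine h4.mono ?_
    rintro _ ⟨x, hx, rfl⟩
    exact hx
  have hcomm : ∀ x y : H, f x = 1 → f y = 1 → x * y = y * x := by
    intro x y hx hy
    rw [derivedSeries_one, commutator_eq_bot_iff_center_eq_top] at h1
    have h2 : (⟨⟨x, hx⟩, x.2⟩ : H.subgroupOf f.ker) ∈ Subgroup.center (H.subgroupOf f.ker) := by
      rw [h1]
      trivial
    have h3 := Subgroup.mem_center_iff.1 h2 ⟨⟨y, hy⟩, y.2⟩
    apply Subtype.ext
    exact (congrArg (fun z : H.subgroupOf f.ker => ((z : f.ker) : G)) h3).symm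
  have h2 : ∀ x ∈ derivedSeries (A.comap p) d, f ((x : A.comap p) : H) = 1 := by
    intro x hx
    have h3 : p.subgroupComap A x ∈ derivedSeries A d :=
      map_derivedSeries_le_derivedSeries (p.subgroupComap A) _ ⟨x, hx, rfl⟩
    rw [hAd, Subgroup.mem_bot] at h3
    exact congrArg (fun z : A => ((z : H.map f) : Q)) h3
  rw [derivedSeries_succ, Subgroup.commutator_eq_bot_iff_le_centralizer]
  intro x hx
  rw [Subgroup.mem_centralizer_iff]
  intro y hy
  exact Subtype.ext (hcomm _ _ (h2 y hy) (h2 x hx))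

/-- Overgroups of index two. -/
theorem vta_two (Q : Type) [Group Q] (χ : Q →* Multiplicative (ZMod 2)) (hQ : VTA χ.ker) :
    VTA Q := by
  obtain ⟨N, d, h⟩ := hQ
  refine ⟨N * 2, d, fun H hH => ?_⟩
  obtain ⟨A, hA0, hAN, hAd⟩ := h (H.subgroupOf χ.ker) fun h3 => hH (by
    have h4 := h3.map χ.ker.subtype Subtype.val_injective
    refine h4.mono ?_
    rintro _ ⟨x, hx, rfl⟩
    exact hx)
  let g : H.subgroupOf χ.ker →* H :=
    { toFun := fun x => ⟨((x : χ.ker) : Q), x.2⟩
      map_one' := rfl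
      map_mul' := fun _ _ => rfl }
  have hg : Function.Injective g := fun x y hxy =>
    Subtype.ext (Subtype.ext (congrArg (fun z : H => (z : Q)) hxy))
  have hr : g.range = (χ.comp H.subtype).ker := by
    ext x
    constructor
    · rintro ⟨y, rfl⟩
      exact (y : χ.ker).2
    · intro hx
      exact ⟨⟨⟨x, hx⟩, x.2⟩, rfl⟩
  have hi : (A.map g).index = A.index * g.range.index := by
    rw [Subgroup.index_map, (MonoidHom.ker_eq_bot_iff g).2 hg, sup_bot_eq]
  have hr1 : g.range.index ≠ 0 ∧ g.range.index ≤ 2 := by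
    rw [hr, Subgroup.index_ker]
    constructor
    · exact Nat.card_ne_zero.mpr ⟨⟨1⟩, inferInstance⟩
    · have h1 : Nat.card (χ.comp H.subtype).range ≤ Nat.card (Multiplicative (ZMod 2)) :=
        Nat.card_le_card_of_injective _ Subtype.val_injective
      rwa [Nat.card_congr (Multiplicative.toAdd (α := ZMod 2)), Nat.card_zmod] at h1
  refine ⟨A.map g, ?_, ?_, ?_⟩
  · rw [hi]
    exact mul_ne_zero hA0 hr1.1
  · rw [hi]
    exact Nat.mul_le_mul hAN hr1.2
  · exact derived_of_inj (A.equivMapOfInjective g hg).symm.toMonoidHom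
      (A.equivMapOfInjective g hg).symm.injective hAd

/-- Overgroups of index two. -/
theorem sta_two' (Q : Type) [Group Q] (χ : Q →* Multiplicative (ZMod 2)) (hQ : STA χ.ker) :
    STA Q := by
  obtain ⟨d, hd⟩ := hQ
  exact ⟨1 + d, TA.ext χ hd TA.comm⟩

theorem stT7 : StT7 := by
  refine ⟨⟨stJC1, fun G K _ _ => stJP_all.1 G K, stV8a, sta_two', fun S _ M h => stV9_all.2 S M h⟩,
    ⟨stJC2, fun G K _ _ => vta_prod G K, vta_ext, vta_two,
      fun S _ M h => vta_of_sta _ (stV9_all.2 S M h)⟩⟩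

end Pool.Agent.Lib.MP_e6f638_al
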