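import Pool.Agent.Lib.MP_e6f638_al.T.Stmts16

/-!
# Module T8: combinatorics of the labels
-/

set_option autoImplicit false

namespace Pool.Agent.Lib.MP_e6f638_al

namespace T8

section

variable {S : Type} {M : CoxeterMatrix S} {u : S}

theorem hat_ll (s t : {x : S // x ≠ u}) : hatM M u (.inl s) (.inl t) = M s t := rfl

theorem hat_rr (s t : {x : S // x ≠ u ∧ M u x = 4}) : hatM M u (.inr s) (.inr t) = M s t := rfl

open Classical in
theorem hat_lr (s : {x : S // x ≠ u}) (t : {x : S // x ≠ u ∧ M u x = 4}) :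
    hatM M u (.inl s) (.inr t) =
      if M u s = 4 then (if (s : S) = t then 2 else 0) else M s t := rfl

open Classical in
theorem hat_rl (s : {x : S // x ≠ u ∧ M u x = 4}) (t : {x : S // x ≠ u}) :
    hatM M u (.inr s) (.inl t) =
      if M u t = 4 then (if (s : S) = t then 2 else 0) else M s t := rfl

theorem hat_lr4 (s : {x : S // x ≠ u}) (t : {x : S // x ≠ u ∧ M u x = 4}) (h : M u s = 4)
    (h0 : hatM M u (.inl s) (.inr t) ≠ 0) :
    (s : S) = t ∧ hatM M u (.inl s) (.inr t) = 2 := by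
  rw [hat_lr, if_pos h] at h0
  rw [hat_lr, if_pos h]
  split_ifs at h0 ⊢ with h1
  · exact ⟨h1, rfl⟩
  · exact absurd rfl h0

theorem hat_lr2 (s : {x : S // x ≠ u}) (t : {x : S // x ≠ u ∧ M u x = 4}) (h : ¬ M u s = 4) :
    hatM M u (.inl s) (.inr t) = M s t := by
  rw [hat_lr, if_neg h]

theorem hat_rl4 (s : {x : S // x ≠ u ∧ M u x = 4}) (t : {x : S // x ≠ u}) (h : M u t = 4)
    (h0 : hatM M u (.inr s) (.inl t) ≠ 0) :
    (s : S) = t ∧ hatM M u (.inr s) (.inl t) = 2 := by
  rw [hat_rl, if_pos h] at h0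
  rw [hat_rl, if_pos h]
  split_ifs at h0 ⊢ with h1
  · exact ⟨h1, rfl⟩
  · exact absurd rfl h0

theorem hat_rl2 (s : {x : S // x ≠ u ∧ M u x = 4}) (t : {x : S // x ≠ u}) (h : ¬ M u t = 4) :
    hatM M u (.inr s) (.inl t) = M s t := by
  rw [hat_rl, if_neg h]

theorem four_iff (hT : Twin M) (hu : ∀ s, s ≠ u → M u s = 2 ∨ M u s = 4) {a b : S} (ha : a ≠ u)
    (hb : b ≠ u) (h : Odd (M a b)) : M u a = 4 ↔ M u b = 4 := by
  have h1 : M a u = 2 ∨ M a u = 4 := by rw [M.symmetric a u]; exact hu a ha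
  have h2 : M b u = 2 ∨ M b u = 4 := by rw [M.symmetric b u]; exact hu b hb
  have h3 := (hT a b u h (by rcases h1 with h1 | h1 <;> rw [h1] <;> decide)
    (by rcases h2 with h2 | h2 <;> rw [h2] <;> decide)
    (by rcases h1 with h1 | h1 <;> rw [h1] <;> decide)
    (by rcases h2 with h2 | h2 <;> rw [h2] <;> decide)).2
  rwa [M.symmetric a u, M.symmetric b u] at h3

theorem not_odd_lr (hT : Twin M) (hu : ∀ s, s ≠ u → M u s = 2 ∨ M u s = 4)
    (s : {x : S // x ≠ u}) (t : {x : S // x ≠ u ∧ M u x = 4}) :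
    ¬ Odd (hatM M u (.inl s) (.inr t)) := by
  intro h
  by_cases h4 : M u s = 4
  · rw [hat_lr, if_pos h4] at h
    split_ifs at h
    · exact absurd h (by decide)
    · exact absurd h (by decide)
  · rw [hat_lr2 s t h4] at h
    exact h4 ((four_iff hT hu s.2 t.2.1 h).2 t.2.2)

theorem twin_hat (hT : Twin M) (hu : ∀ s, s ≠ u → M u s = 2 ∨ M u s = 4) :
    Twin (hatM M u) := by
  rintro (a | a) (b | b) (t | t) hab ea eb na nb
  · exact hT a b t hab ea eb na nb
  · rw [hat_ll] at hab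
    have h4 := four_iff hT hu a.2 b.2 hab
    by_cases h : M u a = 4
    · rw [(hat_lr4 a t h na).2, (hat_lr4 b t (h4.1 h) nb).2]
      exact ⟨Iff.rfl, Iff.rfl⟩
    · have h' : ¬ M u b = 4 := fun h5 => h (h4.2 h5)
      rw [hat_lr2 a t h] at *
      rw [hat_lr2 b t h'] at *
      exact hT a b t hab ea eb na nb
  · exact absurd hab (not_odd_lr hT hu a b)
  · exact absurd hab (not_odd_lr hT hu a b)
  · rw [(hatM M u).symmetric] at hab
    exact absurd hab (not_odd_lr hT hu b a)
  · rw [(hatM M u).symmetric] at hab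
    exact absurd hab (not_odd_lr hT hu b a)
  · rw [hat_rr] at hab
    by_cases h : M u t = 4
    · rw [(hat_rl4 a t h na).2, (hat_rl4 b t h nb).2]
      exact ⟨Iff.rfl, Iff.rfl⟩
    · rw [hat_rl2 a t h] at *
      rw [hat_rl2 b t h] at *
      exact hT a b t hab ea eb na nb
  · exact hT a b t hab ea eb na nb

theorem clique_eq {Y : Set (HS M u)} (hY : Clique (hatM M u) Y) :
    ∀ a ∈ Y, ∀ b ∈ Y, vv M u a ≠ vv M u b → hatM M u a b = M (vv M u a) (vv M u b) := by
  rintro (a | a) ha (b | b) hb hne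
  · rfl
  · by_cases h : M u a = 4
    · exact absurd (hat_lr4 a b h (hY _ ha _ hb)).1 hne
    · exact hat_lr2 a b h
  · by_cases h : M u b = 4
    · exact absurd (hat_rl4 a b h (hY _ ha _ hb)).1 hne
    · exact hat_rl2 a b h
  · rfl

theorem clique_twin (hu : ∀ s, s ≠ u → M u s = 2 ∨ M u s = 4) {Y : Set (HS M u)}
    (hY : Clique (hatM M u) Y) :
    (∀ a ∈ Y, ∀ b ∈ Y, vv M u a = vv M u b → a = b) ∨
      ∃ y : S, M u y = 4 ∧ ∀ a ∈ Y, M u (vv M u a) = 2 ∨ vv M u a = y := by
  by_cases h : ∀ a ∈ Y, ∀ b ∈ Y, vv M u a = vv M u b → a = b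
  · exact Or.inl h
  right
  have key : ∀ (p : {x : S // x ≠ u}) (q : {x : S // x ≠ u ∧ M u x = 4}), .inl p ∈ Y → .inr q ∈ Y →
      (p : S) = q → ∃ y : S, M u y = 4 ∧ ∀ a ∈ Y, M u (vv M u a) = 2 ∨ vv M u a = y := by
    intro p q hp hq hpq
    refine ⟨q, q.2.2, ?_⟩
    rintro (c | c) hc
    · rcases hu c c.2 with h2 | h4
      · exact Or.inl h2
      · exact Or.inr (hat_lr4 c q h4 (hY _ hc _ hq)).1
    · have h4 : M u p = 4 := by rw [hpq]; exact q.2.2
      exact Or.inr ((hat_rl4 c p h4 (hY _ hc _ hp)).1.trans hpq)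
  push Not at h
  obtain ⟨a, ha, b, hb, hab, hne⟩ := h
  rcases a with a | a <;> rcases b with b | b
  · exact absurd (congrArg Sum.inl (Subtype.ext hab)) hne
  · exact key a b ha hb hab
  · exact key b a hb ha hab.symm
  · exact absurd (congrArg Sum.inr (Subtype.ext hab)) hne

/-! ## Odd components -/

theorem conn_symm {s t : S} (h : OddConn M Set.univ s t) : OddConn M Set.univ t s := by
  induction h with
  | refl => exact Relation.ReflTransGen.refl
  | tail _ h2 ih =>
    refine Relation.ReflTransGen.head ⟨trivial, trivial, ?_⟩ ih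
    rw [M.symmetric]
    exact h2.2.2

/-- Labels to a generator outside of the odd component. -/
theorem const_conn (hT : Twin M) (h0 : ∀ s t, M s t ≠ 0) {s s' : S}
    (h : OddConn M Set.univ s s') (t : S) (ht : ¬ OddConn M Set.univ s t) :
    (M s t = 2 ↔ M s' t = 2) ∧ (M s t = 4 ↔ M s' t = 4) := by
  induction h with
  | refl => exact ⟨Iff.rfl, Iff.rfl⟩
  | @tail b c h1 h2 ih =>
    have e1 : Even (M b t) := by
      rw [← Nat.not_odd_iff_even]
      exact fun h3 => ht (h1.tail ⟨trivial, trivial, h3⟩)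
    have e2 : Even (M c t) := by
      rw [← Nat.not_odd_iff_even]
      exact fun h3 => ht ((h1.tail h2).tail ⟨trivial, trivial, h3⟩)
    have h4 := hT b c t h2.2.2 e1 e2 (h0 _ _) (h0 _ _)
    exact ⟨ih.1.trans h4.1, ih.2.trans h4.2⟩

theorem two_four (hT : Twin M) (h0 : ∀ s t, M s t ≠ 0) (hX : Tight M Set.univ) {s t : S}
    (ht : ¬ OddConn M Set.univ s t) : M s t = 2 ∨ M s t = 4 := by
  obtain ⟨s', _, t', _, h1, h2, h3⟩ := hX s trivial t trivial ht
  have ht2 : ¬ OddConn M Set.univ s t' := fun h => ht (h.trans (conn_symm h2))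
  have h4 := const_conn hT h0 h1 t' ht2
  have h5 : M s t' = 2 ∨ M s t' = 4 := h3.imp h4.1.2 h4.2.2
  have h6 := const_conn hT h0 h2 s (fun h => ht (conn_symm h))
  rw [M.symmetric s t'] at h5
  rw [M.symmetric s t]
  exact h5.imp h6.1.2 h6.2.2

end

end T8

open T8 in
/-- Module T8. -/
theorem stT8 : StT8 := by
  intro S M hT u
  refine ⟨fun hu => ⟨twin_hat hT hu, fun Y hY => ⟨clique_eq hY, clique_twin hu hY⟩⟩, ?_⟩
  intro hodd h0 hX
  have hconn : ∀ s, OddConn M Set.univ s u → s = u := by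
    intro s h
    induction h using Relation.ReflTransGen.head_induction_on with
    | refl => rfl
    | @head a c h1 h2 ih =>
      subst ih
      by_contra hne
      refine hodd a hne ?_
      rw [M.symmetric]
      exact h1.2.2
  refine ⟨fun s hs => ?_, ?_⟩
  · exact two_four hT h0 hX fun h => hs (hconn s (conn_symm h))
  · let r : Setoid S :=
      { r := OddConn M Set.univ
        iseqv := ⟨fun _ => Relation.ReflTransGen.refl, fun h => conn_symm h, fun h h' => h.trans h'⟩ }
    refine ⟨Quotient r, Quotient.mk r, ⟨?_, ?_⟩, ?_⟩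
    · intro s t hst
      exact two_four hT h0 hX fun h => hst (Quotient.sound h)
    · intro s s' t hss hst
      have h1 : OddConn M Set.univ s s' := Quotient.exact hss
      have h2 : ¬ OddConn M Set.univ s t := fun h => hst (Quotient.sound h)
      have h3 := const_conn hT h0 h1 t h2
      rcases two_four hT h0 hX h2 with h4 | h4
      · rw [h4, h3.1.1 h4]
      · rw [h4, h3.2.1 h4]
    · intro s hs
      exact hconn s (Quotient.exact hs)

end Pool.Agent.Lib.MP_e6f638_al
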