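import Pool.Agent.Lib.MP_e6f638_al.T.Stmts16
import Pool.Agent.Lib.MP_e6f638_al.J.Main

/-!
# Artin groups whose odd components are modules: the induction
-/

set_option autoImplicit false

namespace Pool.Agent.Lib.MP_e6f638_al

open Multiplicative Pool.Agent.Results.MP_e6f638_al.EvenArtin

namespace T9

/-- The Artin groups of the odd cliques have `Pr`. -/
def Bad (Pr : (G : Type) → [Group G] → Prop) {S : Type} (M : CoxeterMatrix S) : Prop :=
  ∀ X : Set S, Clique M X → Tight M X → Irr M X →
    (∀ s ∈ X, ∃ t ∈ X, t ≠ s ∧ Odd (M s t)) → Pr (ArtinGroup (res M X))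

section

variable {T S : Type} (N : CoxeterMatrix T) (M : CoxeterMatrix S) (f : T → S) (X : Set T)

theorem exists_inj (hf : Set.InjOn f X) (hl : ∀ a ∈ X, ∀ b ∈ X, N a b = M (f a) (f b)) :
    ∃ F : ArtinGroup (res N X) →* ArtinGroup (res M (f '' X)), Function.Injective F := by
  classical
  let g : X → (f '' X : Set S) := fun x => ⟨f x, x, x.2, rfl⟩
  let k : (f '' X : Set S) → X := fun y => ⟨y.2.choose, y.2.choose_spec.1⟩
  have hk : ∀ y, f (k y) = y := fun y => y.2.choose_spec.2
  refine J42.exists_map_inj stJH (res N X) (res M (f '' X)) g k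
    (fun s t => hl s s.2 t t.2) (fun s t => ?_) (fun s => Subtype.ext (hf (k (g s)).2 s.2 (hk _)))
  have h1 := hl (k s) (k s).2 (k t) (k t).2
  rw [hk, hk] at h1
  exact h1.symm

variable {N M f X}

theorem oddConn_map (hl : ∀ a ∈ X, ∀ b ∈ X, N a b = M (f a) (f b)) {a b : T}
    (h : OddConn N X a b) : OddConn M (f '' X) (f a) (f b) := by
  induction h with
  | refl => exact Relation.ReflTransGen.refl
  | tail _ hbc ih =>
    exact ih.tail ⟨⟨_, hbc.1, rfl⟩, ⟨_, hbc.2.1, rfl⟩, hl _ hbc.1 _ hbc.2.1 ▸ hbc.2.2⟩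

theorem clique_image (hl : ∀ a ∈ X, ∀ b ∈ X, N a b = M (f a) (f b)) (h : Clique N X) :
    Clique M (f '' X) := by
  rintro _ ⟨a, ha, rfl⟩ _ ⟨b, hb, rfl⟩
  rw [← hl a ha b hb]
  exact h a ha b hb

theorem tight_image (hl : ∀ a ∈ X, ∀ b ∈ X, N a b = M (f a) (f b)) (h : Tight N X) :
    Tight M (f '' X) := by
  rintro _ ⟨a, ha, rfl⟩ _ ⟨b, hb, rfl⟩ hab
  obtain ⟨a', ha', b', hb', h1, h2, h3⟩ := h a ha b hb fun h' => hab (oddConn_map hl h')
  refine ⟨f a', ⟨a', ha', rfl⟩, f b', ⟨b', hb', rfl⟩, oddConn_map hl h1, oddConn_map hl h2, ?_⟩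
  rw [← hl a' ha' b' hb']
  exact h3

theorem irr_image (hl : ∀ a ∈ X, ∀ b ∈ X, N a b = M (f a) (f b))
    (h : Irr N X) : Irr M (f '' X) := by
  rintro O hO ⟨o, ho⟩ ⟨p, hp, hpO⟩
  obtain ⟨a, ha, rfl⟩ := hO ho
  obtain ⟨b, hb, rfl⟩ := hp
  obtain ⟨s, hs, t, ht, hst⟩ := h {x | x ∈ X ∧ f x ∈ O} (fun x hx => hx.1) ⟨a, ha, ho⟩
    ⟨b, hb, fun h' => hpO h'.2⟩
  refine ⟨f s, hs.2, f t, ⟨⟨t, ht.1, rfl⟩, fun h' => ht.2 ⟨ht.1, h'⟩⟩, ?_⟩
  rw [← hl s hs.1 t ht.1]
  exact hst

theorem odd_image (hf : Set.InjOn f X) (hl : ∀ a ∈ X, ∀ b ∈ X, N a b = M (f a) (f b))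
    (h : ∀ s ∈ X, ∃ t ∈ X, t ≠ s ∧ Odd (N s t)) :
    ∀ s ∈ f '' X, ∃ t ∈ f '' X, t ≠ s ∧ Odd (M s t) := by
  rintro _ ⟨a, ha, rfl⟩
  obtain ⟨b, hb, hab, hodd⟩ := h a ha
  refine ⟨f b, ⟨b, hb, rfl⟩, fun h' => hab (hf hb ha h'), ?_⟩
  rw [← hl a ha b hb]
  exact hodd

end

/-- An odd clique which embeds in `M`. -/
theorem pr_of_bad {Pr : (G : Type) → [Group G] → Prop} (hP : Cls2 Pr) {T S : Type}
    {N : CoxeterMatrix T} {M : CoxeterMatrix S} (hM : Bad Pr M) (f : T → S) (X : Set T)
    (hf : Set.InjOn f X) (hl : ∀ a ∈ X, ∀ b ∈ X, N a b = M (f a) (f b)) (h1 : Clique N X)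
    (h2 : Tight N X) (h3 : Irr N X) (h4 : ∀ s ∈ X, ∃ t ∈ X, t ≠ s ∧ Odd (N s t)) :
    Pr (ArtinGroup (res N X)) := by
  obtain ⟨F, hF⟩ := exists_inj N M f X hf hl
  exact hP.cls.inj _ _ F hF (hM _ (clique_image hl h1) (tight_image hl h2) (irr_image hl h3)
    (odd_image hf hl h4))

theorem twin_of_inj {T S : Type} {N : CoxeterMatrix T} {M : CoxeterMatrix S} (hM : Twin M)
    (f : T → S) (hl : ∀ a b, N a b = M (f a) (f b)) : Twin N := by
  intro a b t h1 h2 h3 h4 h5
  rw [hl] at h1 h2 h3 h4 h5
  rw [hl, hl]
  exact hM _ _ _ h1 h2 h3 h4 h5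

theorem bad_of_inj {Pr : (G : Type) → [Group G] → Prop} (hP : Cls2 Pr) {T S : Type}
    {N : CoxeterMatrix T} {M : CoxeterMatrix S} (hM : Bad Pr M) (f : T → S)
    (hf : Function.Injective f) (hl : ∀ a b, N a b = M (f a) (f b)) : Bad Pr N :=
  fun X h1 h2 h3 h4 => pr_of_bad hP hM f X hf.injOn (fun a _ b _ => hl a b) h1 h2 h3 h4

/-- The Artin group of `M` embeds in that of the restriction to everything. -/
theorem pr_univ {Pr : (G : Type) → [Group G] → Prop} (hP : Cls2 Pr) {S : Type}
    (M : CoxeterMatrix S) (h : Pr (ArtinGroup (res M Set.univ))) : Pr (ArtinGroup M) := by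
  obtain ⟨F, hF⟩ := J42.exists_map_inj stJH M (res M Set.univ) (fun s => ⟨s, trivial⟩)
    Subtype.val (fun _ _ => rfl) (fun _ _ => rfl) (fun _ => rfl)
  exact hP.cls.inj _ _ F hF h

/-- Restriction of a tight set. -/
theorem tight_res {S : Type} {M : CoxeterMatrix S} {X : Set S} (h : Tight M X) :
    Tight (res M X) Set.univ := by
  have key : ∀ {s t : S} (hs : s ∈ X), OddConn M X s t → ∃ ht : t ∈ X,
      OddConn (res M X) Set.univ ⟨s, hs⟩ ⟨t, ht⟩ := by
    intro s t hs hst
    induction hst with
    | refl => exact ⟨hs, Relation.ReflTransGen.refl⟩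
    | @tail b c _ hbc ih =>
      obtain ⟨hb, hb'⟩ := ih
      exact ⟨hbc.2.1, hb'.tail ⟨trivial, trivial, hbc.2.2⟩⟩
  have key2 : ∀ {s t : X}, OddConn (res M X) Set.univ s t → OddConn M X s t := by
    intro s t hst
    induction hst with
    | refl => exact Relation.ReflTransGen.refl
    | @tail b c _ hbc ih => exact ih.tail ⟨b.2, c.2, hbc.2.2⟩
  intro s _ t _ hst
  obtain ⟨s', hs', t', ht', h1, h2, h3⟩ := h s s.2 t t.2 fun h' => hst (key s.2 h').2
  exact ⟨⟨s', hs'⟩, trivial, ⟨t', ht'⟩, trivial, (key s.2 h1).2, (key t.2 h2).2, h3⟩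

theorem irr_res {S : Type} {M : CoxeterMatrix S} {X : Set S} (h : Irr M X) :
    Irr (res M X) Set.univ := by
  rintro O - ⟨o, ho⟩ ⟨p, -, hp⟩
  obtain ⟨s, ⟨s', hs', rfl⟩, t, ht, hst⟩ := h (Subtype.val '' O)
    (by rintro _ ⟨x, -, rfl⟩; exact x.2) ⟨o, o, ho, rfl⟩
    ⟨p, p.2, by rintro ⟨x, hx, hxp⟩; exact hp (Subtype.ext hxp ▸ hx)⟩
  exact ⟨s', hs', ⟨t, ht.1⟩, ⟨trivial, fun h' => ht.2 ⟨_, h', rfl⟩⟩, hst⟩

end T9

open T9

/-- The step: two different generators have label `4` with `u`. -/
theorem step9 (h5 : StT5) (h6 : StT6) (h8 : StT8) {Pr : (G : Type) → [Group G] → Prop}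
    (hP : Cls2 Pr) (n : ℕ)
    (ih : ∀ (S : Type) [Finite S] (M : CoxeterMatrix S), Nat.card S ≤ n → Twin M → Bad Pr M →
      Pr (ArtinGroup M))
    (S : Type) [Finite S] (M : CoxeterMatrix S) (hn : Nat.card S ≤ n + 1) (hT : Twin M)
    (hB : Bad Pr M) (h0 : ∀ s t, M s t ≠ 0) (hti : Tight M Set.univ) (u : S)
    (hu : ∀ s, s ≠ u → ¬ Odd (M u s)) (y z : S) (hyz : y ≠ z) (hy : M u y = 4) (hz : M u z = 4) :
    Pr (ArtinGroup M) := by
  classical
  obtain ⟨h24, ι, c, hc, hcu⟩ := (h8 S M hT u).2 hu h0 hti
  obtain ⟨hT', hcl⟩ := (h8 S M hT u).1 h24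
  obtain ⟨-, W, F, hF⟩ := h5 S ι M c hc u hcu
  obtain ⟨Q, _, Λ, χ, η, hη, hΛ⟩ := h6 S M u h24
  -- the extension
  suffices hmain : Pr (ArtinGroup (hatM M u)) by
    refine hP.ext _ Q Λ ⟨W, F.comp (Subgroup.inclusion hΛ), ?_⟩
      (hP.two Q χ (hP.cls.inj _ _ η hη hmain))
    exact hF.comp (Subgroup.inclusion_injective hΛ)
  have hneu : ∀ a : HS M u, vv M u a ≠ u := by
    rintro (s | s)
    · exact s.2
    · exact s.2.1
  -- cardinalities
  have hcard : ∀ (Y : Set (HS M u)) (g : Y → S), Function.Injective g → (∀ a, g a ≠ u) →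
      Nat.card Y ≤ n := by
    intro Y g hg hgu
    have h1 : Nat.card Y ≤ Nat.card {x : S // x ≠ u} :=
      Nat.card_le_card_of_injective (fun a => (⟨g a, hgu a⟩ : {x : S // x ≠ u}))
        fun a b hab => hg (congrArg Subtype.val hab)
    have h2 : Nat.card {x : S // x ≠ u} < Nat.card S :=
      Finite.card_subtype_lt (p := fun x => x ≠ u) (x := u) (fun h => h rfl)
    omega
  refine stJI stVL stJH stJE stJJ_all stJP_all Pr hP.cls hP.prod (HS M u) (hatM M u)
    fun Y hY _ _ => ?_
  obtain ⟨hl, hd⟩ := hcl Y hY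
  have hTY : Twin (res (hatM M u) Y) := twin_of_inj hT' Subtype.val fun _ _ => rfl
  rcases hd with hinj | ⟨y₀, hy₀, hd⟩
  · -- the underlying generators are distinct
    have hg : Function.Injective fun a : Y => vv M u a :=
      fun a b hab => Subtype.ext (hinj a a.2 b b.2 hab)
    have hlab : ∀ a b : Y, res (hatM M u) Y a b = M (vv M u a) (vv M u b) := by
      intro a b
      by_cases hab : vv M u a = vv M u b
      · have h1 : a = b := hg hab
        subst h1
        rw [(res (hatM M u) Y).diagonal, M.diagonal]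
      · exact hl a a.2 b b.2 hab
    exact ih Y _ (hcard Y _ hg fun a => hneu a) hTY (bad_of_inj hP hB _ hg hlab)
  · -- two copies of `y₀`
    obtain ⟨w, hw, hwy⟩ : ∃ w : S, M u w = 4 ∧ w ≠ y₀ := by
      by_cases h1 : y = y₀
      · exact ⟨z, hz, fun h' => hyz (h1.trans h'.symm)⟩
      · exact ⟨y, hy, h1⟩
    refine ih Y _ ?_ hTY ?_
    · -- cardinality
      let g : Y → S := fun a => match (a : HS M u) with
        | .inl s => s
        | .inr s => if (s : S) = y₀ then w else s
      refine hcard Y g ?_ ?_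
      · rintro ⟨a, ha⟩ ⟨b, hb⟩ hab
        apply Subtype.ext
        have ha2 := hd a ha
        have hb2 := hd b hb
        have key : ∀ (s : {x : S // x ≠ u}) (t : {x : S // x ≠ u ∧ M u x = 4}),
            (M u s = 2 ∨ (s : S) = y₀) → (M u t = 2 ∨ (t : S) = y₀) →
            (s : S) ≠ if (t : S) = y₀ then w else t := by
          intro s t hs ht hst
          have ht' : (t : S) = y₀ := by
            rcases ht with ht | ht
            · exact absurd (t.2.2.symm.trans ht) (by decide)
            · exact ht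
          rw [if_pos ht'] at hst
          rcases hs with hs | hs
          · rw [hst, hw] at hs
            exact absurd hs (by decide)
          · exact hwy (hst.symm.trans hs)
        rcases a with s | s <;> rcases b with t | t
        · exact congrArg Sum.inl (Subtype.ext hab)
        · exact absurd hab (key s t ha2 hb2)
        · exact absurd hab.symm (key t s hb2 ha2)
        · have hs' : (s : S) = y₀ := by
            rcases ha2 with h | h
            · exact absurd (s.2.2.symm.trans h) (by decide)
            · exact h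
          have ht' : (t : S) = y₀ := by
            rcases hb2 with h | h
            · exact absurd (t.2.2.symm.trans h) (by decide)
            · exact h
          exact congrArg Sum.inr (Subtype.ext (hs'.trans ht'.symm))
      · rintro ⟨a, ha⟩
        rcases a with s | s
        · exact s.2
        · show (if (s : S) = y₀ then w else s) ≠ u
          split_ifs with h
          · intro h'
            rw [h', M.diagonal] at hw
            exact absurd hw (by decide)
          · exact s.2.1
    · -- odd cliques do not meet the copies of `y₀`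
      intro X h1 h2 h3 h4
      have hX : ∀ a ∈ X, M u (vv M u a) = 2 := by
        intro a ha
        obtain ⟨b, hb, hba, hodd⟩ := h4 a ha
        rcases hd a a.2 with h5 | h5
        · exact h5
        exfalso
        have hodd' : Odd (hatM M u a b) := hodd
        by_cases hab : vv M u (a : HS M u) = vv M u (b : HS M u)
        · -- the two copies
          have h6 : hatM M u a b = 2 := by
            have hne : (a : HS M u) ≠ b := fun h' => hba (Subtype.ext h').symm
            generalize (a : HS M u) = a' at hab hne h5 ⊢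
            generalize (b : HS M u) = b' at hab hne ⊢
            rcases a' with s | s <;> rcases b' with t | t
            · exact absurd (congrArg Sum.inl (Subtype.ext hab)) hne
            · have hab' : (s : S) = t := hab
              show hatF M u (.inl s) (.inr t) = 2
              simp only [hatF]
              rw [if_pos hab', if_pos (hab' ▸ t.2.2)]
            · have hab' : (s : S) = t := hab
              show hatF M u (.inr s) (.inl t) = 2
              simp only [hatF]
              rw [if_pos hab', if_pos (hab' ▸ s.2.2)]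
            · exact absurd (congrArg Sum.inr (Subtype.ext hab)) hne
          rw [h6] at hodd'
          exact absurd hodd' (by decide)
        · rw [hl a a.2 b b.2 hab, h5] at hodd'
          have h7 : M u (vv M u (b : HS M u)) = 2 := by
            rcases hd b b.2 with h7 | h7
            · exact h7
            · exact absurd (h5.trans h7.symm) hab
          have h8' := (hT y₀ (vv M u (b : HS M u)) u hodd'
            (by rw [M.symmetric, hy₀]; decide) (by rw [M.symmetric, h7]; decide)
            (h0 _ _) (h0 _ _)).2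
          rw [M.symmetric y₀, hy₀, M.symmetric (vv M u (b : HS M u)), h7] at h8'
          exact absurd (h8'.1 rfl) (by decide)
      have hinr : ∀ a ∈ X, ∃ s, (a : HS M u) = Sum.inl s := by
        intro a ha
        have h5 := hX a ha
        generalize (a : HS M u) = a' at h5 ⊢
        rcases a' with s | s
        · exact ⟨s, rfl⟩
        · exact absurd (s.2.2.symm.trans h5) (by decide)
      have hinj : Set.InjOn (fun a : Y => vv M u (a : HS M u)) X := by
        intro a ha b hb hab
        obtain ⟨s, hs⟩ := hinr a ha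
        obtain ⟨t, ht⟩ := hinr b hb
        apply Subtype.ext
        simp only [hs, ht] at hab ⊢
        exact congrArg Sum.inl (Subtype.ext hab)
      refine pr_of_bad hP hB (fun a : Y => vv M u (a : HS M u)) X hinj ?_ h1 h2 h3 h4
      intro a ha b hb
      by_cases hab : vv M u (a : HS M u) = vv M u (b : HS M u)
      · have h1 : a = b := hinj ha hb hab
        subst h1
        rw [(res (hatM M u) Y).diagonal, M.diagonal]
      · exact hl a a.2 b b.2 hab

theorem stT9 (h5 : StT5) (h6 : StT6) (h8 : StT8) : StT9 := by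
  intro Pr hP
  have key : ∀ (n : ℕ) (S : Type) [Finite S] (M : CoxeterMatrix S), Nat.card S ≤ n → Twin M →
      Bad Pr M → Pr (ArtinGroup M) := by
    intro n
    induction n with
    | zero =>
      intro S _ M hn _ _
      have hS : IsEmpty S := by
        rw [← not_nonempty_iff]
        intro h
        have := Nat.card_pos (α := S)
        omega
      exact hP.even S M fun s => (hS.false s).elim
    | succ n ih =>
      intro S₀ _ M₀ hn₀ hT₀ hB₀
      refine stJI stVL stJH stJE stJJ_all stJP_all Pr hP.cls hP.prod S₀ M₀ fun X hX hX' hI => ?_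
      -- clique, tight, irreducible
      have hT : Twin (res M₀ X) := twin_of_inj hT₀ Subtype.val fun _ _ => rfl
      have hB : Bad Pr (res M₀ X) :=
        bad_of_inj hP hB₀ Subtype.val Subtype.val_injective fun _ _ => rfl
      have h0 : ∀ s t, res M₀ X s t ≠ 0 := fun s t => hX s s.2 t t.2
      have hti : Tight (res M₀ X) Set.univ := tight_res hX'
      have hir : Irr (res M₀ X) Set.univ := irr_res hI
      have hn : Nat.card X ≤ n + 1 :=
        (Nat.card_le_card_of_injective (Subtype.val : X → S₀) Subtype.val_injective).trans hn₀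
      generalize res M₀ X = M at hT hB h0 hti hir ⊢
      -- every generator has an odd label
      by_cases hodd : ∀ s : X, ∃ t, t ≠ s ∧ Odd (M s t)
      · refine pr_univ hP M (hB Set.univ (fun s _ t _ => h0 s t) hti hir fun s _ => ?_)
        obtain ⟨t, ht⟩ := hodd s
        exact ⟨t, trivial, ht⟩
      push Not at hodd
      obtain ⟨u, hu⟩ := hodd
      -- two labels `4` at a generator without odd labels
      by_cases h2 : ∃ u : X, (∀ s, s ≠ u → ¬ Odd (M u s)) ∧ ∃ y z : X, y ≠ z ∧ M u y = 4 ∧
          M u z = 4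
      · obtain ⟨u, hu, y, z, hyz, hy, hz⟩ := h2
        exact step9 h5 h6 h8 hP n ih X M hn hT hB h0 hti u hu y z hyz hy hz
      push Not at h2
      have h24 : ∀ v : X, (∀ s, s ≠ v → ¬ Odd (M v s)) → ∀ s, s ≠ v → M v s = 2 ∨ M v s = 4 :=
        fun v hv => ((h8 X M hT v).2 hv h0 hti).1
      have hu24 := h24 u hu
      by_cases h3 : ∃ y, M u y = 4
      · obtain ⟨y, hy⟩ := h3
        have hyu : y ≠ u := by
          rintro rfl
          rw [M.diagonal] at hy
          exact absurd hy (by decide)
        have honly : ∀ s, s ≠ u → s ≠ y → M u s = 2 := by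
          intro s hs hsy
          rcases hu24 s hs with h | h
          · exact h
          · exact absurd hy (h2 u hu s y hsy h)
        have hy' : ∀ s, s ≠ y → ¬ Odd (M y s) := by
          intro s hsy hos
          by_cases hsu : s = u
          · rw [hsu, M.symmetric, hy] at hos
            exact absurd hos (by decide)
          have h7 := honly s hsu hsy
          have h8' := (hT y s u hos (by rw [M.symmetric, hy]; decide)
            (by rw [M.symmetric, h7]; decide) (h0 _ _) (h0 _ _)).2
          rw [M.symmetric y, hy, M.symmetric s, h7] at h8'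
          exact absurd (h8'.1 rfl) (by decide)
        have hyo : ∀ s, s ≠ y → s ≠ u → M y s = 2 := by
          intro s hsy hsu
          rcases h24 y hy' s hsy with h | h
          · exact h
          · exact absurd (by rw [M.symmetric]; exact hy) (h2 y hy' s u hsu h)
        -- nothing else
        have hall : ∀ s : X, s = u ∨ s = y := by
          by_contra hne
          push Not at hne
          obtain ⟨s, hs1, hs2⟩ := hne
          obtain ⟨a, ha, b, hb, hab⟩ := hir {u, y} (Set.subset_univ _) ⟨u, by simp⟩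
            ⟨s, trivial, by simp [hs1, hs2]⟩
          have hb1 : b ≠ u := fun h => hb.2 (by simp [h])
          have hb2 : b ≠ y := fun h => hb.2 (by simp [h])
          rcases ha with rfl | ha
          · exact hab (honly b hb1 hb2)
          · rw [Set.mem_singleton_iff] at ha
            subst ha
            exact hab (hyo b hb2 hb1)
        refine hP.even X M fun s t hst => ?_
        rcases hall s with rfl | rfl <;> rcases hall t with rfl | rfl
        · exact absurd rfl hst
        · rw [hy]; decide
        · rw [M.symmetric, hy]; decide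
        · exact absurd rfl hst
      · push Not at h3
        have hall : ∀ s : X, s = u := by
          by_contra hne
          push Not at hne
          obtain ⟨s, hs1⟩ := hne
          obtain ⟨a, ha, b, hb, hab⟩ := hir {u} (Set.subset_univ _) ⟨u, rfl⟩
            ⟨s, trivial, hs1⟩
          rw [Set.mem_singleton_iff] at ha
          subst ha
          rcases hu24 b hb.2 with h | h
          · exact hab h
          · exact h3 b h
        exact hP.even X M fun s t hst => absurd ((hall s).trans (hall t).symm) hst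
  intro S _ M hT hB
  exact key _ S M le_rfl hT hB

end Pool.Agent.Lib.MP_e6f638_al
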