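import Pool.Agent.Lib.MP_e6f638_al.T.T1_53
import Pool.Agent.Lib.MP_e6f638_al.T.T2_33
import Pool.Agent.Lib.MP_e6f638_al.T.T2p_40
import Pool.Agent.Lib.MP_e6f638_al.T.T3_16
import Pool.Agent.Lib.MP_e6f638_al.T.T4_53
import Pool.Agent.Lib.MP_e6f638_al.T.T5_21
import Pool.Agent.Lib.MP_e6f638_al.T.T6_54
import Pool.Agent.Lib.MP_e6f638_al.T.T7_16
import Pool.Agent.Lib.MP_e6f638_al.T.T8_38
import Pool.Agent.Lib.MP_e6f638_al.T.T9_16

/-!
# Artin groups whose odd components are modules: assembly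
-/

set_option autoImplicit false

namespace Pool.Agent.Lib.MP_e6f638_al

theorem stT5_all : StT5 := stT5_21 stVL stT2 (stT2' (stV3' stV3) stT1) stT3 stT4

theorem stT9_all : StT9 := stT9 stT5_all stT6 stT8

end Pool.Agent.Lib.MP_e6f638_al
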