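import Pool.Agent.Lib.MP_e6f638_al.V.Stmts77
import Pool.Agent.Lib.MP_e6f638_al.J.JI

/-!
# Artin groups whose odd components are modules: statements of the modules

If `M a b` is odd and `M a t`, `M b t` are even and finite then both are `2`, or both are `4`, or
both are at least `6`.
-/

set_option autoImplicit false

namespace Pool.Agent.Lib.MP_e6f638_al

open Multiplicative Pool.Agent.Results.MP_e6f638_al.EvenArtin

/-! ## The kernel of a retraction -/

/-- `A` is `⟨G, u | u commutes with C, (u y) ^ 2 = (y u) ^ 2⟩`. -/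
structure IsExt2 {G : Type} [Group G] (C : Subgroup G) {Y : Type} (y : Y → G) (A : Type) [Group A]
    (i : G →* A) (u : A) : Prop where
  comm : ∀ c ∈ C, i c * u = u * i c
  rel : ∀ k, (u * i (y k)) ^ 2 = (i (y k) * u) ^ 2
  lift : ∀ (K : Type) [Group K] (f : G →* K) (w : K), (∀ c ∈ C, f c * w = w * f c) →
    (∀ k, (w * f (y k)) ^ 2 = (f (y k) * w) ^ 2) → ∃ F : A →* K, F.comp i = f ∧ F u = w
  gen : Subgroup.closure (Set.range i ∪ {u}) = ⊤

/-- The lines: the cosets of `g y ^ n`. -/
def gpt {G : Type} [Group G] (C : Subgroup G) {Y : Type} (y : Y → G) : G × Y → ℤ → G ⧸ C :=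
  fun p n => QuotientGroup.mk (p.1 * y p.2 ^ n)

/-- Module T1. The kernel of the retraction killing `u` is the group of the points and lines. -/
def StT1 : Prop :=
  ∀ (G : Type) [Group G] (C : Subgroup G) (Y : Type) (y : Y → G) (A : Type) [Group A] (i : G →* A)
    (u : A), IsExt2 C y A i u →
    ∃ ρ : A →* G, (∀ a, ρ (i a) = a) ∧ ρ u = 1 ∧
      ∃ e : ρ.ker ≃* KG (gpt C y), ∀ (a : G) (h : i a * u * (i a)⁻¹ ∈ ρ.ker),
        e ⟨i a * u * (i a)⁻¹, h⟩ = tt (gpt C y) (QuotientGroup.mk a)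

/-- Conjugates of powers of `u` by elements of `C`. -/
structure CCa {G : Type} [Group G] (C : Subgroup G) (u : G) : Prop where
  two : ∀ a ∈ C, ∀ m : ℤ, m ≠ 0 → a * u ^ m * a⁻¹ = u ^ m → Commute a u
  three : ∀ a ∈ C, ∀ b ∈ C, ∀ k₁ k₂ k₃ : ℤ, k₁ ≠ 0 → k₂ ≠ 0 → k₃ ≠ 0 →
    u ^ k₁ * (a * u ^ k₂ * a⁻¹) * (b * u ^ k₃ * b⁻¹) = 1 →
    Commute a u ∨ Commute b u ∨ Commute (a⁻¹ * b) u

/-- Module T2. The points and lines of a group `G` with a retraction `r` to `C` killing the `y` and
a map `p` killing `C`. -/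
def StT2 : Prop :=
  ∀ (G : Type) [Group G] (C : Subgroup G) (Y : Type) (y : Y → G) (r : G →* G) (Q : Type) [Group Q]
    (p : G →* Q), (∀ c ∈ C, r c = c) → (∀ g, r g ∈ C) → (∀ k, r (y k) = 1) → (∀ c ∈ C, p c = 1) →
    (∀ (k : Y) (n : ℤ), p (y k) ^ n = 1 → n = 0) →
    (∀ (j₁ j₂ j₃ : Y) (k₁ k₂ k₃ : ℤ), k₁ ≠ 0 → k₂ ≠ 0 → k₃ ≠ 0 →
      p (y j₁) ^ k₁ * p (y j₂) ^ k₂ * p (y j₃) ^ k₃ = 1 → j₁ = j₂ ∧ j₂ = j₃) →
    (∀ k, CCa C (y k)) → IsGeo (gpt C y)

/-- Module T2'. The conclusions of the abstract theorem for the extension: conjugates of powers of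
`u`, and the normal closure of `u ^ 2`. -/
def StT2' : Prop :=
  ∀ (G : Type) [Group G] (C : Subgroup G) (Y : Type) (y : Y → G) (A : Type) [Group A] (i : G →* A)
    (u : A), IsExt2 C y A i u → IsGeo (gpt C y) →
    CCa i.range u ∧
    ∃ (W : Type) (F : Subgroup.normalClosure {u ^ 2} →* FreeGroup W), Function.Injective F

/-! ## Artin groups -/

/-- The standard subgroup generated by `X`. -/
def parM {S : Type} (M : CoxeterMatrix S) (X : Set S) : Subgroup (ArtinGroup M) :=
  Subgroup.closure (ag M '' X)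

/-- The classes of `c` are modules: the labels between different classes are `2` or `4` and
constant. -/
structure Mod {S ι : Type} (M : CoxeterMatrix S) (c : S → ι) : Prop where
  two_or_four : ∀ s t, c s ≠ c t → M s t = 2 ∨ M s t = 4
  const : ∀ s s' t, c s = c s' → c s ≠ c t → M s t = M s' t

/-- Module T3. Products of powers of three generators. -/
def StT3 : Prop :=
  ∀ (S : Type) [Finite S] (M : CoxeterMatrix S),
    (∀ (s : S) (n : ℤ), ag M s ^ n = 1 → n = 0) ∧
    ∀ (s₁ s₂ s₃ : S) (k₁ k₂ k₃ : ℤ), k₁ ≠ 0 → k₂ ≠ 0 → k₃ ≠ 0 →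
      ag M s₁ ^ k₁ * ag M s₂ ^ k₂ * ag M s₃ ^ k₃ = 1 → s₁ = s₂ ∧ s₂ = s₃

/-- Module T4. Killing a set of generators; the extension by one generator. -/
def StT4 : Prop :=
  (∀ (S : Type) (M : CoxeterMatrix S) (X : Set S), (∀ s ∈ X, ∀ t ∉ X, Even (M s t)) →
    (∃ r : ArtinGroup M →* ArtinGroup M, (∀ s ∈ X, r (ag M s) = ag M s) ∧
      (∀ s ∉ X, r (ag M s) = 1)) ∧
    ∃ p : ArtinGroup M →* ArtinGroup (res M X), (∀ s : X, p (ag M s) = ag (res M X) s) ∧
      ∀ s ∉ X, p (ag M s) = 1) ∧
  ∀ (S : Type) (M : CoxeterMatrix S) (u : S), (∀ s, s ≠ u → M u s = 2 ∨ M u s = 4) →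
    ∃ i : ArtinGroup (res M {x | x ≠ u}) →* ArtinGroup M, (∀ s, i (ag _ s) = ag M s) ∧
      IsExt2 (parM (res M {x | x ≠ u}) {s | M u s = 2})
        (fun y : {s : ({x | x ≠ u} : Set S) // M u s = 4} => ag (res M {x | x ≠ u}) y)
        (ArtinGroup M) i (ag M u)

/-- Module T5. The normal closure of the square of a generator which is a class. -/
def StT5 : Prop :=
  ∀ (S : Type) [Finite S] (ι : Type) (M : CoxeterMatrix S) (c : S → ι), Mod M c →
    ∀ u : S, (∀ s, c s = c u → s = u) →
      CCa (parM M {s | s ≠ u}) (ag M u) ∧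
      ∃ (W : Type) (F : Subgroup.normalClosure {ag M u ^ 2} →* FreeGroup W), Function.Injective F

/-- The generators after the relation `u ^ 2 = 1`: the generators different from `u`, and a second
copy of those with label `4` with `u`. -/
abbrev HS {S : Type} (M : CoxeterMatrix S) (u : S) : Type :=
  {x : S // x ≠ u} ⊕ {x : S // x ≠ u ∧ M u x = 4}

/-- The underlying generator. -/
def vv {S : Type} (M : CoxeterMatrix S) (u : S) : HS M u → S :=
  Sum.elim (fun x => (x : S)) (fun x => (x : S))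

open Classical in
/-- The labels after the relation `u ^ 2 = 1`. -/
noncomputable def hatF {S : Type} (M : CoxeterMatrix S) (u : S) : HS M u → HS M u → ℕ
  | .inl s, .inl t => M s t
  | .inr s, .inr t => M s t
  | .inl s, .inr t => if M u s = 4 then (if (s : S) = t then 2 else 0) else M s t
  | .inr s, .inl t => if M u t = 4 then (if (s : S) = t then 2 else 0) else M s t

open Classical in
theorem hatF_symm {S : Type} (M : CoxeterMatrix S) (u : S) (a b : HS M u) :
    hatF M u a b = hatF M u b a := by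
  have key : ∀ s t : S, (if M u s = 4 then (if s = t then 2 else 0) else M s t) =
      if M u s = 4 then (if t = s then 2 else 0) else M t s := by
    intro s t
    have e : (if s = t then 2 else 0) = if t = s then 2 else 0 := by
      by_cases h : s = t
      · rw [if_pos h, if_pos h.symm]
      · rw [if_neg h, if_neg fun h' => h h'.symm]
    rw [e, M.symmetric t s]
  rcases a with s | s <;> rcases b with t | t
  · exact M.symmetric _ _
  · exact key s t
  · exact (key t s).symm
  · exact M.symmetric _ _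

/-- The Coxeter matrix after the relation `u ^ 2 = 1`. -/
noncomputable def hatM {S : Type} (M : CoxeterMatrix S) (u : S) : CoxeterMatrix (HS M u) where
  M := hatF M u
  isSymm := by
    ext a b
    exact hatF_symm M u b a
  diagonal := by
    rintro (s | s)
    · exact M.diagonal _
    · exact M.diagonal _
  off_diagonal := by
    rintro (s | s) (t | t) h <;> simp only [hatF]
    · exact M.off_diagonal _ _ fun h' => h (congrArg Sum.inl (Subtype.ext h'))
    · split_ifs with h1 h2
      · decide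
      · decide
      · exact M.off_diagonal _ _ fun h' => h1 (h' ▸ t.2.2)
    · split_ifs with h1 h2
      · decide
      · decide
      · exact M.off_diagonal _ _ fun h' => h1 (h' ▸ s.2.2)
    · exact M.off_diagonal _ _ fun h' => h (congrArg Sum.inr (Subtype.ext h'))

/-- Module T6. The quotient by the square of `u`. -/
def StT6 : Prop :=
  ∀ (S : Type) (M : CoxeterMatrix S) (u : S), (∀ s, s ≠ u → M u s = 2 ∨ M u s = 4) →
    ∃ (Q : Type) (_ : Group Q) (Λ : ArtinGroup M →* Q) (χ : Q →* Multiplicative (ZMod 2))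
      (η : χ.ker →* ArtinGroup (hatM M u)),
      Function.Injective η ∧ Λ.ker ≤ Subgroup.normalClosure {ag M u ^ 2}

/-- The condition on odd labels. -/
def Twin {S : Type} (M : CoxeterMatrix S) : Prop :=
  ∀ a b t : S, Odd (M a b) → Even (M a t) → Even (M b t) → M a t ≠ 0 → M b t ≠ 0 →
    (M a t = 2 ↔ M b t = 2) ∧ (M a t = 4 ↔ M b t = 4)

/-- Classes of groups closed under subgroups, amalgams, HNN extensions, products, extensions with
kernel in a free group, and overgroups of index two, which contain the even Artin groups. -/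
structure Cls2 (Pr : (G : Type) → [Group G] → Prop) : Prop where
  cls : Cls Pr
  prod : ∀ (G K : Type) [Group G] [Group K], Pr G → Pr K → Pr (G × K)
  ext : ∀ (G Q : Type) [Group G] [Group Q] (f : G →* Q),
    (∃ (W : Type) (F : f.ker →* FreeGroup W), Function.Injective F) → Pr Q → Pr G
  two : ∀ (Q : Type) [Group Q] (χ : Q →* Multiplicative (ZMod 2)), Pr χ.ker → Pr Q
  even : ∀ (S : Type) [Finite S] (M : CoxeterMatrix S), (∀ s t, s ≠ t → Even (M s t)) →
    Pr (ArtinGroup M)

/-- Module T7. The two classes. -/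
def StT7 : Prop := Cls2 (fun G [Group G] => STA G) ∧ Cls2 (fun G [Group G] => VTA G)

/-- Module T8. Cliques after the relation `u ^ 2 = 1`; tight cliques with a generator `u` without odd
labels. -/
def StT8 : Prop :=
  ∀ (S : Type) (M : CoxeterMatrix S), Twin M → ∀ u : S,
    ((∀ s, s ≠ u → M u s = 2 ∨ M u s = 4) →
      Twin (hatM M u) ∧
      ∀ Y : Set (HS M u), Clique (hatM M u) Y →
        (∀ a ∈ Y, ∀ b ∈ Y, vv M u a ≠ vv M u b → hatM M u a b = M (vv M u a) (vv M u b)) ∧
        ((∀ a ∈ Y, ∀ b ∈ Y, vv M u a = vv M u b → a = b) ∨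
          ∃ y : S, M u y = 4 ∧ ∀ a ∈ Y, M u (vv M u a) = 2 ∨ vv M u a = y)) ∧
    ((∀ s, s ≠ u → ¬ Odd (M u s)) → (∀ s t, M s t ≠ 0) → Tight M Set.univ →
      (∀ s, s ≠ u → M u s = 2 ∨ M u s = 4) ∧
      ∃ (ι : Type) (c : S → ι), Mod M c ∧ ∀ s, c s = c u → s = u)

/-- Module T9. The theorem. -/
def StT9 : Prop :=
  ∀ (Pr : (G : Type) → [Group G] → Prop), Cls2 Pr → ∀ (S : Type) [Finite S] (M : CoxeterMatrix S),
    Twin M →
    (∀ X : Set S, Clique M X → Tight M X → Irr M X →
      (∀ s ∈ X, ∃ t ∈ X, t ≠ s ∧ Odd (M s t)) → Pr (ArtinGroup (res M X))) →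
    Pr (ArtinGroup M)

end Pool.Agent.Lib.MP_e6f638_al
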