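import Pool.Agent.Lib.MP_e6f638_al.T.Main16

/-!
# Artin groups whose odd components are modules: the last step
-/

set_option autoImplicit false

namespace Pool.Agent.Lib.MP_e6f638_al

open Multiplicative Pool.Agent.Results.MP_e6f638_al.EvenArtin T9

/-- Irreducible tight cliques in which every generator has an odd label. -/
def OddCl {S : Type} (M : CoxeterMatrix S) (X : Set S) : Prop :=
  Clique M X ∧ Tight M X ∧ Irr M X ∧ ∀ s ∈ X, ∃ t ∈ X, t ≠ s ∧ Odd (M s t)

/-- Two generators. -/
theorem sta_two (S : Type) [Finite S] (M : CoxeterMatrix S) (X : Set S)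
    (hX : ∀ s ∈ X, ∃ t ∈ X, t ≠ s ∧ Odd (M s t)) (h2 : X.ncard ≤ 2) :
    STA (ArtinGroup (res M X)) := by
  rcases X.eq_empty_or_nonempty with h | ⟨s, hs⟩
  · refine (stJD stJH).1 X (res M X) ?_
    rw [h]
    infer_instance
  obtain ⟨t, ht, hts, hodd⟩ := hX s hs
  refine (stJD stJH).2 X (res M X) ⟨s, hs⟩ ⟨t, ht⟩ (fun h' => hts (congrArg Subtype.val h').symm)
    (fun x => ?_) hodd
  by_contra hx
  push Not at hx
  have h3 : ({s, t, (x : S)} : Set S) ⊆ X := by
    rintro y (rfl | rfl | rfl)
    · exact hs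
    · exact ht
    · exact x.2
  have h4 : ({s, t, (x : S)} : Set S).ncard = 3 := by
    rw [Set.ncard_eq_three]
    exact ⟨s, t, x, hts.symm, fun h' => hx.1 (Subtype.ext h'.symm),
      fun h' => hx.2 (Subtype.ext h'.symm), rfl⟩
  have h5 := Set.ncard_le_ncard h3 (Set.toFinite X)
  omega

/-- The theorem for a class of groups, with the condition on the tight cliques. -/
theorem tw_cls (Pr : (G : Type) → [Group G] → Prop) (hP : Cls2 Pr) (S : Type) [Finite S]
    (M : CoxeterMatrix S)
    (hT : ∀ X : Set S, Clique M X → Tight M X → Irr M X → Twin (res M X))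
    (hM : ∀ X : Set S, OddCl M X → Pr (ArtinGroup (res M X))) : Pr (ArtinGroup M) :=
  stJI stVL stJH stJE stJJ_all stJP_all Pr hP.cls hP.prod S M fun X hX hX' hI =>
    stT9_all Pr hP X (res M X) (hT X hX hX' hI)
      (bad_of_inj hP (fun Y h1 h2 h3 h4 => hM Y ⟨h1, h2, h3, h4⟩) Subtype.val
        Subtype.val_injective fun _ _ => rfl)

/-- If every irreducible tight clique in which every generator has an odd label has at most two
elements, subgroups without free subgroups of rank two are solvable. -/
theorem tw_small (S : Type) [Finite S] (M : CoxeterMatrix S)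
    (hT : ∀ X : Set S, Clique M X → Tight M X → Irr M X → Twin (res M X))
    (hM : ∀ X : Set S, OddCl M X → X.ncard ≤ 2) : STA (ArtinGroup M) :=
  tw_cls (fun G [Group G] => STA G) stT7.1 S M hT fun X hX => sta_two S M X hX.2.2.2 (hM X hX)

/-- The same with the bounded Tits alternative. -/
theorem tw_mixed (S : Type) [Finite S] (M : CoxeterMatrix S)
    (hT : ∀ X : Set S, Clique M X → Tight M X → Irr M X → Twin (res M X))
    (hM : ∀ X : Set S, OddCl M X → X.ncard ≤ 2 ∨ VTA (ArtinGroup (res M X))) :
    VTA (ArtinGroup M) :=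
  tw_cls (fun G [Group G] => VTA G) stT7.2 S M hT fun X hX =>
    (hM X hX).elim (fun h => vta_of_sta _ (sta_two S M X hX.2.2.2 h)) id

end Pool.Agent.Lib.MP_e6f638_al
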