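import Pool.Agent.Lib.MP_e6f638_al.T.Stmts16
import Pool.Agent.Lib.MP_e6f638_al.V.V4_53

/-!
# Module T1: the kernel of the retraction killing `u`
-/

set_option autoImplicit false

namespace Pool.Agent.Lib.MP_e6f638_al

namespace T1

open V4

variable {G : Type} [Group G] (C : Subgroup G) {Y : Type} (y : Y → G)

theorem smul_gpt (b : G) (p : G × Y) (n : ℤ) : b • gpt C y p n = gpt C y (b * p.1, p.2) n := by
  show b • (QuotientGroup.mk (p.1 * y p.2 ^ n) : G ⧸ C) =
    QuotientGroup.mk (b * p.1 * y p.2 ^ n)
  rw [MulAction.Quotient.smul_mk, smul_eq_mul, mul_assoc]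

/-- The action of an element on the group of the points and lines. -/
noncomputable def act (b : G) : KG (gpt C y) →* KG (gpt C y) :=
  liftKG (gpt C y) (fun x => tt (gpt C y) (b • x)) (fun p i j => by
    rw [smul_gpt, smul_gpt, smul_gpt, smul_gpt]
    exact tt_rel (gpt C y) (b * p.1, p.2) i j)

theorem act_tt (b : G) (x : G ⧸ C) :
    act C y b (tt (gpt C y) x) = tt (gpt C y) (b • x) := liftKG_tt _ _ _ _

theorem act_one (k : KG (gpt C y)) : act C y 1 k = k := by
  have : act C y 1 = MonoidHom.id _ := by
    refine hom_ext_KG _ fun x => ?_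
    rw [act_tt, one_smul]; rfl
  exact DFunLike.congr_fun this k

theorem act_mul (a b : G) (k : KG (gpt C y)) :
    act C y (a * b) k = act C y a (act C y b k) := by
  have : act C y (a * b) = (act C y a).comp (act C y b) := by
    refine hom_ext_KG _ fun x => ?_
    rw [act_tt, MonoidHom.comp_apply, act_tt, act_tt, mul_smul]
  exact DFunLike.congr_fun this k

/-- The action as a homomorphism to the automorphism group. -/
noncomputable def al : G →* MulAut (KG (gpt C y)) where
  toFun b :=
    { toFun := act C y b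
      invFun := act C y b⁻¹
      left_inv := fun k => by rw [← act_mul, inv_mul_cancel, act_one]
      right_inv := fun k => by rw [← act_mul, mul_inv_cancel, act_one]
      map_mul' := map_mul _ }
  map_one' := by
    ext k
    exact act_one C y k
  map_mul' a b := by
    ext k
    exact act_mul C y a b k

theorem al_apply (b : G) (k : KG (gpt C y)) : al C y b k = act C y b k := rfl

theorem al_tt (b : G) (a : G) :
    al C y b (tt (gpt C y) (QuotientGroup.mk a)) = tt (gpt C y) (QuotientGroup.mk (b * a)) := by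
  rw [al_apply, act_tt, MulAction.Quotient.smul_mk, smul_eq_mul]

/-- The semidirect product. -/
abbrev SD : Type := KG (gpt C y) ⋊[al C y] G

/-- The base point. -/
noncomputable def t0 : KG (gpt C y) := tt (gpt C y) (QuotientGroup.mk 1)

theorem rel_one {c : G} (h : c ∈ C) : al C y c (t0 C y) = t0 C y := by
  rw [t0, al_tt]
  congr 1
  refine (QuotientGroup.eq.2 ?_).symm
  rw [inv_one, one_mul, mul_one]
  exact h

theorem rel_two (k : Y) :
    t0 C y * al C y (y k) (t0 C y) = al C y (y k) (t0 C y) * al C y (y k) (al C y (y k) (t0 C y)) := by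
  have h1 := tt_rel (gpt C y) ((1 : G), k) 0 1
  have e0 : gpt C y ((1 : G), k) 0 = QuotientGroup.mk 1 := by
    show (QuotientGroup.mk (1 * y k ^ (0 : ℤ)) : G ⧸ C) = _
    rw [zpow_zero, mul_one]
  have e1 : gpt C y ((1 : G), k) 1 = QuotientGroup.mk (y k * 1) := by
    show (QuotientGroup.mk (1 * y k ^ (1 : ℤ)) : G ⧸ C) = _
    rw [zpow_one, one_mul, mul_one]
  have e2 : gpt C y ((1 : G), k) (1 + 1) = QuotientGroup.mk (y k * (y k * 1)) := by
    show (QuotientGroup.mk (1 * y k ^ ((1 : ℤ) + 1)) : G ⧸ C) = _
    rw [zpow_add, zpow_one, one_mul, mul_one]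
  rw [zero_add, e0, e1, e2] at h1
  rw [t0, al_tt, al_tt]
  exact h1

variable {C y} {A : Type} [Group A] {i : G →* A} {u : A}

/-- Two homomorphisms which agree on the generators. -/
theorem hom_ext_A (h : IsExt2 C y A i u) {K : Type} [Group K] {F F' : A →* K}
    (h1 : ∀ a, F (i a) = F' (i a)) (h2 : F u = F' u) : F = F' := by
  refine MonoidHom.eq_of_eqOn_dense h.gen ?_
  rintro x (⟨a, rfl⟩ | hx)
  · exact h1 a
  · rw [Set.mem_singleton_iff] at hx
    rw [hx]
    exact h2

/-- The map to the semidirect product. -/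
theorem exists_Phi (h : IsExt2 C y A i u) : ∃ Φ : A →* SD C y,
    (∀ a, Φ (i a) = SemidirectProduct.inr a) ∧ Φ u = SemidirectProduct.inl (t0 C y) := by
  obtain ⟨Φ, h1, h2⟩ := h.lift (SD C y) SemidirectProduct.inr (SemidirectProduct.inl (t0 C y))
    (by
      intro c hc
      ext
      · simp only [SemidirectProduct.mul_left, SemidirectProduct.left_inl,
          SemidirectProduct.right_inl, SemidirectProduct.left_inr, SemidirectProduct.right_inr,
          map_one, mul_one, one_mul]
        exact rel_one C y hc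
      · simp)
    (by
      intro k
      rw [pow_two, pow_two]
      ext
      · simp only [SemidirectProduct.mul_left, SemidirectProduct.mul_right,
          SemidirectProduct.left_inl,
          SemidirectProduct.right_inl, SemidirectProduct.left_inr, SemidirectProduct.right_inr,
          map_one, mul_one, one_mul]
        exact rel_two C y k
      · simp)
  exact ⟨Φ, fun a => DFunLike.congr_fun h1 a, h2⟩

/-- The value on a point. -/
noncomputable def pv (h : IsExt2 C y A i u) (x : G ⧸ C) : A :=
  Quotient.liftOn' x (fun a => i a * u * (i a)⁻¹) (by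
    intro a b hab
    have h1 : a⁻¹ * b ∈ C := QuotientGroup.leftRel_apply.1 hab
    have h2 := h.comm _ h1
    have h3 : b = a * (a⁻¹ * b) := by group
    show i a * u * (i a)⁻¹ = i b * u * (i b)⁻¹
    rw [h3, map_mul, mul_assoc (i a) (i (a⁻¹ * b)), h2]
    group)

theorem pv_mk (h : IsExt2 C y A i u) (a : G) :
    pv h (QuotientGroup.mk a) = i a * u * (i a)⁻¹ := rfl

/-- The map back on the group of the points and lines. -/
noncomputable def psi (h : IsExt2 C y A i u) : KG (gpt C y) →* A :=
  liftKG (gpt C y) (pv h) (by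
    rintro ⟨g, k⟩ n m
    have h1 : ∀ n : ℤ, pv h (gpt C y (g, k) n) * pv h (gpt C y (g, k) (n + 1)) =
        i g * (u * i (y k) * u * (i (y k))⁻¹) * (i g)⁻¹ := by
      intro n
      have h3 := comm_two (h.rel k) n
      show pv h (QuotientGroup.mk (g * y k ^ n)) *
        pv h (QuotientGroup.mk (g * y k ^ (n + 1))) = _
      rw [pv_mk, pv_mk, map_mul, map_mul, map_zpow, map_zpow, ← h3]
      group
    rw [h1, h1])

theorem psi_tt (h : IsExt2 C y A i u) (a : G) :
    psi h (tt (gpt C y) (QuotientGroup.mk a)) = i a * u * (i a)⁻¹ := by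
  rw [psi, liftKG_tt, pv_mk]

theorem psi_al (h : IsExt2 C y A i u) (b : G) (k : KG (gpt C y)) :
    psi h (al C y b k) = i b * psi h k * (i b)⁻¹ := by
  have : (psi h).comp (al C y b).toMonoidHom =
      (MulAut.conj (i b)).toMonoidHom.comp (psi h) := by
    refine hom_ext_KG _ fun x => ?_
    induction x using QuotientGroup.induction_on with
    | H a =>
      show psi h (al C y b (tt (gpt C y) (QuotientGroup.mk a))) =
        i b * psi h (tt (gpt C y) (QuotientGroup.mk a)) * (i b)⁻¹
      rw [al_tt, psi_tt, psi_tt, map_mul]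
      group
  exact DFunLike.congr_fun this k

end T1

open T1 V4 in
/-- Module T1. -/
theorem stT1 : StT1 := by
  intro G _ C Y y A _ i u h
  obtain ⟨Φ, hΦi, hΦu⟩ := T1.exists_Phi h
  set ρ : A →* G := SemidirectProduct.rightHom.comp Φ with hρ
  have hρa : ∀ x, ρ x = (Φ x).right := fun x => rfl
  have hρi : ∀ a, ρ (i a) = a := by
    intro a
    rw [hρa, hΦi]; rfl
  have hρu : ρ u = 1 := by
    rw [hρa, hΦu]; rfl
  have hconj : ∀ b : G, (T1.psi h).comp (T1.al C y b).toMonoidHom =
      (MulAut.conj (i b)).toMonoidHom.comp (T1.psi h) := by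
    intro b
    exact MonoidHom.ext fun k => T1.psi_al h b k
  set Ψ : T1.SD C y →* A := SemidirectProduct.lift (T1.psi h) i hconj with hΨ
  have hΨΦ : ∀ x, Ψ (Φ x) = x := by
    intro x
    have : Ψ.comp Φ = MonoidHom.id _ := by
      refine T1.hom_ext_A h (fun a => ?_) ?_
      · rw [MonoidHom.comp_apply, hΦi, hΨ, SemidirectProduct.lift_inr]
        rfl
      · rw [MonoidHom.comp_apply, hΦu, hΨ, SemidirectProduct.lift_inl, T1.t0, T1.psi_tt, map_one]
        simp
    exact DFunLike.congr_fun this x
  have hΦψ : ∀ k, Φ (T1.psi h k) = SemidirectProduct.inl k := by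
    intro k
    have : Φ.comp (T1.psi h) = SemidirectProduct.inl := by
      refine hom_ext_KG _ fun x => ?_
      induction x using QuotientGroup.induction_on with
      | H a =>
        rw [MonoidHom.comp_apply, T1.psi_tt, map_mul, map_mul, map_inv, hΦi, hΦu, ← map_inv,
          ← SemidirectProduct.inl_aut, T1.t0, T1.al_tt, mul_one]
    exact DFunLike.congr_fun this k
  have hker : ∀ x : ρ.ker, Φ x = SemidirectProduct.inl (Φ x).left := by
    intro x
    ext
    · simp
    · have h1 : ρ x = 1 := x.2
      rw [hρa] at h1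
      rw [h1]; simp
  refine ⟨ρ, hρi, hρu, ?_⟩
  refine ⟨{ toFun := fun x => (Φ x).left
            invFun := fun k => ⟨T1.psi h k, by
              rw [MonoidHom.mem_ker, hρa, hΦψ]; rfl⟩
            left_inv := fun x => ?_
            right_inv := fun k => ?_
            map_mul' := fun x z => ?_ }, ?_⟩
  · apply Subtype.ext
    show T1.psi h (Φ x).left = x
    have h1 := hΨΦ x
    rw [hker x, hΨ, SemidirectProduct.lift_inl] at h1
    exact h1
  · show (Φ (T1.psi h k)).left = k
    rw [hΦψ]; rfl
  · show (Φ ((x : A) * z)).left = (Φ x).left * (Φ z).left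
    have h1 : (Φ (x : A)).right = 1 := by rw [← hρa]; exact x.2
    rw [map_mul, SemidirectProduct.mul_left, h1, map_one]
    rfl
  · intro a h'
    show (Φ (i a * u * (i a)⁻¹)).left = _
    rw [← T1.psi_tt h a, hΦψ]; rfl

end Pool.Agent.Lib.MP_e6f638_al
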